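import Mathlib

/-!
# Lazy transposition shuffles: operators on functions of one or two points

`Op α` is a lazy transposition.  `E1 ℓ g x` is the expectation of `g` at the final position
of a particle started from `x` when the lazy transpositions of the list `ℓ` are performed
one after the other (the head of the list first); `E2 ℓ f x y` is the same for two particles.
-/

namespace Q292.Sh

open Finset

/-- A lazy transposition: swap `a` and `b` with probability `p`. -/
structure Op (α : Type*) where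
  a : α
  b : α
  p : ℝ

/-- validity of one lazy transposition -/
def Op.Ok {α : Type*} (o : Op α) : Prop := o.a ≠ o.b ∧ 0 ≤ o.p ∧ o.p ≤ 1

/-- validity of a list of lazy transpositions -/
def Ok {α : Type*} (ℓ : List (Op α)) : Prop := ∀ o ∈ ℓ, o.Ok

/-- relabelling of the points of a lazy transposition -/
def Op.map {α γ : Type*} (e : α → γ) (o : Op α) : Op γ := ⟨e o.a, e o.b, o.p⟩

section
variable {α : Type*} [DecidableEq α]

/-- one particle expectation -/
def E1 : List (Op α) → (α → ℝ) → α → ℝ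
  | [], g, x => g x
  | o :: ℓ, g, x => (1 - o.p) * E1 ℓ g x + o.p * E1 ℓ g (Equiv.swap o.a o.b x)

/-- two particle expectation -/
def E2 : List (Op α) → (α → α → ℝ) → α → α → ℝ
  | [], f, x, y => f x y
  | o :: ℓ, f, x, y => (1 - o.p) * E2 ℓ f x y
      + o.p * E2 ℓ f (Equiv.swap o.a o.b x) (Equiv.swap o.a o.b y)

@[simp] lemma E1_nil (g : α → ℝ) (x : α) : E1 [] g x = g x := rfl
@[simp] lemma E2_nil (f : α → α → ℝ) (x y : α) : E2 [] f x y = f x y := rfl

lemma E1_cons (o : Op α) (ℓ : List (Op α)) (g : α → ℝ) (x : α) :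
    E1 (o :: ℓ) g x = (1 - o.p) * E1 ℓ g x + o.p * E1 ℓ g (Equiv.swap o.a o.b x) := rfl

lemma E2_cons (o : Op α) (ℓ : List (Op α)) (f : α → α → ℝ) (x y : α) :
    E2 (o :: ℓ) f x y = (1 - o.p) * E2 ℓ f x y
      + o.p * E2 ℓ f (Equiv.swap o.a o.b x) (Equiv.swap o.a o.b y) := rfl

lemma E1_append (ℓ₁ ℓ₂ : List (Op α)) (g : α → ℝ) (x : α) :
    E1 (ℓ₁ ++ ℓ₂) g x = E1 ℓ₁ (E1 ℓ₂ g) x := by
  induction ℓ₁ generalizing x with
  | nil => rfl
  | cons o ℓ ih => simp [E1_cons, ih]

lemma E2_append (ℓ₁ ℓ₂ : List (Op α)) (f : α → α → ℝ) (x y : α) :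
    E2 (ℓ₁ ++ ℓ₂) f x y = E2 ℓ₁ (E2 ℓ₂ f) x y := by
  induction ℓ₁ generalizing x y with
  | nil => rfl
  | cons o ℓ ih => simp [E2_cons, ih]

lemma E2_congr (ℓ : List (Op α)) {f g : α → α → ℝ} (h : ∀ x y, x ≠ y → f x y = g x y)
    {x y : α} (hxy : x ≠ y) : E2 ℓ f x y = E2 ℓ g x y := by
  induction ℓ generalizing x y with
  | nil => exact h x y hxy
  | cons o ℓ ih =>
    rw [E2_cons, E2_cons, ih hxy, ih (fun h' => hxy ((Equiv.swap o.a o.b).injective h'))]

lemma E1_const (ℓ : List (Op α)) (c : ℝ) (x : α) : E1 ℓ (fun _ => c) x = c := by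
  induction ℓ generalizing x with
  | nil => rfl
  | cons o ℓ ih => rw [E1_cons, ih, ih]; ring

lemma E2_const (ℓ : List (Op α)) (c : ℝ) (x y : α) : E2 ℓ (fun _ _ => c) x y = c := by
  induction ℓ generalizing x y with
  | nil => rfl
  | cons o ℓ ih => rw [E2_cons, ih, ih]; ring

lemma E2_eq_const (ℓ : List (Op α)) {f : α → α → ℝ} {c : ℝ} (h : ∀ x y, x ≠ y → f x y = c)
    {x y : α} (hxy : x ≠ y) : E2 ℓ f x y = c := by
  rw [E2_congr ℓ h hxy, E2_const]

lemma E1_add (ℓ : List (Op α)) (f g : α → ℝ) (x : α) :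
    E1 ℓ (fun x => f x + g x) x = E1 ℓ f x + E1 ℓ g x := by
  induction ℓ generalizing x with
  | nil => rfl
  | cons o ℓ ih => simp only [E1_cons, ih]; ring

lemma E1_mul (ℓ : List (Op α)) (c : ℝ) (g : α → ℝ) (x : α) :
    E1 ℓ (fun x => c * g x) x = c * E1 ℓ g x := by
  induction ℓ generalizing x with
  | nil => rfl
  | cons o ℓ ih => simp only [E1_cons, ih]; ring

lemma E2_add (ℓ : List (Op α)) (f g : α → α → ℝ) (x y : α) :
    E2 ℓ (fun x y => f x y + g x y) x y = E2 ℓ f x y + E2 ℓ g x y := by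
  induction ℓ generalizing x y with
  | nil => rfl
  | cons o ℓ ih => simp only [E2_cons, ih]; ring

lemma E2_mul (ℓ : List (Op α)) (c : ℝ) (f : α → α → ℝ) (x y : α) :
    E2 ℓ (fun x y => c * f x y) x y = c * E2 ℓ f x y := by
  induction ℓ generalizing x y with
  | nil => rfl
  | cons o ℓ ih => simp only [E2_cons, ih]; ring

/-- functions of the first particle only -/
lemma E2_fst (ℓ : List (Op α)) (g : α → ℝ) (x y : α) :
    E2 ℓ (fun x _ => g x) x y = E1 ℓ g x := by
  induction ℓ generalizing x y with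
  | nil => rfl
  | cons o ℓ ih => simp only [E2_cons, E1_cons, ih]

/-- functions of the second particle only -/
lemma E2_snd (ℓ : List (Op α)) (g : α → ℝ) (x y : α) :
    E2 ℓ (fun _ y => g y) x y = E1 ℓ g y := by
  induction ℓ generalizing x y with
  | nil => rfl
  | cons o ℓ ih => simp only [E2_cons, E1_cons, ih]

/-! ### Relabelling along an injective map -/

section lift
variable {γ : Type*} [DecidableEq γ] {e : α → γ} (he : Function.Injective e)

include he

lemma swap_map (a b x : α) : Equiv.swap (e a) (e b) (e x) = e (Equiv.swap a b x) :=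
  (he.swap_apply a b x)

omit [DecidableEq α] he in
lemma swap_out {a b : α} {y : γ} (hy : ∀ x, e x ≠ y) : Equiv.swap (e a) (e b) y = y :=
  Equiv.swap_apply_of_ne_of_ne (hy a).symm (hy b).symm

lemma E1_lift (ℓ : List (Op α)) (g : γ → ℝ) (x : α) :
    E1 (ℓ.map (Op.map e)) g (e x) = E1 ℓ (fun x => g (e x)) x := by
  induction ℓ generalizing x with
  | nil => rfl
  | cons o ℓ ih =>
    rw [List.map_cons, E1_cons, E1_cons, ih]
    simp only [Op.map]
    rw [swap_map he, ih]

omit [DecidableEq α] he in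
lemma E1_lift_out (ℓ : List (Op α)) (g : γ → ℝ) {y : γ} (hy : ∀ x, e x ≠ y) :
    E1 (ℓ.map (Op.map e)) g y = g y := by
  induction ℓ with
  | nil => rfl
  | cons o ℓ ih =>
    rw [List.map_cons, E1_cons, ih]
    simp only [Op.map]
    rw [swap_out hy, ih]; ring

lemma E2_lift (ℓ : List (Op α)) (f : γ → γ → ℝ) (x y : α) :
    E2 (ℓ.map (Op.map e)) f (e x) (e y) = E2 ℓ (fun x y => f (e x) (e y)) x y := by
  induction ℓ generalizing x y with
  | nil => rfl
  | cons o ℓ ih =>
    rw [List.map_cons, E2_cons, E2_cons, ih]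
    simp only [Op.map]
    rw [swap_map he, swap_map he, ih]

lemma E2_lift_fst (ℓ : List (Op α)) (f : γ → γ → ℝ) (x : α) {y : γ} (hy : ∀ x, e x ≠ y) :
    E2 (ℓ.map (Op.map e)) f (e x) y = E1 ℓ (fun x => f (e x) y) x := by
  induction ℓ generalizing x with
  | nil => rfl
  | cons o ℓ ih =>
    rw [List.map_cons, E2_cons, E1_cons, ih]
    simp only [Op.map]
    rw [swap_map he, swap_out hy, ih]

lemma E2_lift_snd (ℓ : List (Op α)) (f : γ → γ → ℝ) {x : γ} (y : α) (hx : ∀ y, e y ≠ x) :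
    E2 (ℓ.map (Op.map e)) f x (e y) = E1 ℓ (fun y => f x (e y)) y := by
  induction ℓ generalizing y with
  | nil => rfl
  | cons o ℓ ih =>
    rw [List.map_cons, E2_cons, E1_cons, ih]
    simp only [Op.map]
    rw [swap_map he, swap_out hx, ih]

omit [DecidableEq α] he in
lemma E2_lift_out (ℓ : List (Op α)) (f : γ → γ → ℝ) {x y : γ} (hx : ∀ z, e z ≠ x)
    (hy : ∀ z, e z ≠ y) : E2 (ℓ.map (Op.map e)) f x y = f x y := by
  induction ℓ with
  | nil => rfl
  | cons o ℓ ih =>
    rw [List.map_cons, E2_cons, ih]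
    simp only [Op.map]
    rw [swap_out hx, swap_out hy, ih]; ring

omit [DecidableEq α] [DecidableEq γ] in
lemma Ok.lift {ℓ : List (Op α)} (h : Ok ℓ) : Ok (ℓ.map (Op.map e)) := by
  intro o ho
  obtain ⟨o', ho', rfl⟩ := List.mem_map.1 ho
  obtain ⟨h1, h2, h3⟩ := h o' ho'
  exact ⟨fun h => h1 (he h), h2, h3⟩

end lift

omit [DecidableEq α] in
lemma Ok.append {ℓ₁ ℓ₂ : List (Op α)} (h₁ : Ok ℓ₁) (h₂ : Ok ℓ₂) : Ok (ℓ₁ ++ ℓ₂) := by
  intro o ho
  rcases List.mem_append.1 ho with h | h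
  · exact h₁ o h
  · exact h₂ o h

omit [DecidableEq α] in
lemma Ok.nil : Ok ([] : List (Op α)) := by
  intro o ho; simp at ho

/-! ### Sums over the starting points -/

variable [Fintype α]

lemma sum_E1 (ℓ : List (Op α)) (g : α → ℝ) : ∑ x, E1 ℓ g x = ∑ x, g x := by
  induction ℓ with
  | nil => rfl
  | cons o ℓ ih =>
    simp only [E1_cons, sum_add_distrib, ← mul_sum]
    rw [Equiv.sum_comp (Equiv.swap o.a o.b) (fun x => E1 ℓ g x), ih]; ring

/-- the sum of `f x y` over the `y` different from `x` -/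
def rowSum (f : α → α → ℝ) (x : α) : ℝ := ∑ y ∈ univ.erase x, f x y

lemma sum_erase_perm (σ : Equiv.Perm α) (h : α → ℝ) (x : α) :
    ∑ y ∈ univ.erase x, h (σ y) = ∑ y ∈ univ.erase (σ x), h y := by
  refine Finset.sum_bij (fun y _ => σ y) ?_ ?_ ?_ ?_
  · intro y hy
    simp only [mem_erase, mem_univ, and_true, ne_eq, EmbeddingLike.apply_eq_iff_eq] at hy ⊢
    exact hy
  · intro a _ b _ h; exact σ.injective h
  · intro b hb
    refine ⟨σ.symm b, ?_, by simp⟩
    simp only [mem_erase, mem_univ, and_true, ne_eq] at hb ⊢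
    intro h; apply hb; rw [← h]; simp
  · intro y _; rfl

/-- summing over the second particle -/
lemma rowSum_E2 (ℓ : List (Op α)) (f : α → α → ℝ) (x : α) :
    rowSum (E2 ℓ f) x = E1 ℓ (rowSum f) x := by
  induction ℓ generalizing x with
  | nil => rfl
  | cons o ℓ ih =>
    rw [E1_cons, ← ih, ← ih]
    unfold rowSum
    simp only [E2_cons, sum_add_distrib, ← mul_sum]
    rw [sum_erase_perm (Equiv.swap o.a o.b)
      (fun y => E2 ℓ f (Equiv.swap o.a o.b x) y) x]

lemma sum_rowSum_E2 (ℓ : List (Op α)) (f : α → α → ℝ) :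
    ∑ x, rowSum (E2 ℓ f) x = ∑ x, rowSum f x := by
  simp only [rowSum_E2]
  exact sum_E1 ℓ _

/-- average over all points -/
noncomputable def avg1 (g : α → ℝ) : ℝ := (∑ x, g x) / (Fintype.card α : ℝ)

/-- average over all ordered pairs of distinct points -/
noncomputable def avg2 (f : α → α → ℝ) : ℝ :=
  (∑ x, rowSum f x) / ((Fintype.card α : ℝ) * ((Fintype.card α : ℝ) - 1))

/-- strong 1-shuffle, in terms of expectations -/
def Uni1 (ℓ : List (Op α)) : Prop := ∀ g x, E1 ℓ g x = avg1 g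

/-- strong 2-shuffle, in terms of expectations -/
def Uni2 (ℓ : List (Op α)) : Prop := ∀ f x y, x ≠ y → E2 ℓ f x y = avg2 f

lemma E1_eq_avg {ℓ : List (Op α)} {g : α → ℝ} {c : ℝ} (h : ∀ x, E1 ℓ g x = c) (x : α) :
    E1 ℓ g x = avg1 g := by
  have h1 := sum_E1 ℓ g
  simp only [h, sum_const, card_univ, nsmul_eq_mul] at h1
  rw [h x, avg1, ← h1]
  have : (Fintype.card α : ℝ) ≠ 0 := by
    have := Fintype.card_pos_iff.2 ⟨x⟩
    positivity
  field_simp

lemma rowSum_const (c : ℝ) (x : α) :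
    rowSum (fun _ _ : α => c) x = ((Fintype.card α : ℝ) - 1) * c := by
  unfold rowSum
  rw [sum_const, card_erase_of_mem (mem_univ x), card_univ, nsmul_eq_mul,
    Nat.cast_sub (Fintype.card_pos_iff.2 ⟨x⟩)]
  simp

lemma rowSum_congr {f g : α → α → ℝ} (h : ∀ x y, x ≠ y → f x y = g x y) (x : α) :
    rowSum f x = rowSum g x := by
  unfold rowSum
  apply sum_congr rfl
  intro y hy
  exact h x y (fun h' => by simp [h'] at hy)

omit [DecidableEq α] in
lemma one_lt_card_of_ne {x y : α} (hxy : x ≠ y) : (1 : ℝ) < (Fintype.card α : ℝ) := by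
  have := Fintype.one_lt_card_iff.2 ⟨x, y, hxy⟩
  exact_mod_cast this

lemma E2_eq_avg {ℓ : List (Op α)} {f : α → α → ℝ} {c : ℝ} (h : ∀ x y, x ≠ y → E2 ℓ f x y = c)
    {x y : α} (hxy : x ≠ y) : E2 ℓ f x y = avg2 f := by
  have h1 := sum_rowSum_E2 ℓ f
  have h2 : ∀ x, rowSum (E2 ℓ f) x = ((Fintype.card α : ℝ) - 1) * c := by
    intro x
    rw [rowSum_congr h x, rowSum_const]
  simp only [h2, sum_const, card_univ, nsmul_eq_mul] at h1
  rw [h x y hxy, avg2, ← h1]
  have h3 := one_lt_card_of_ne hxy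
  have h4 : (Fintype.card α : ℝ) ≠ 0 := by linarith
  have h5 : (Fintype.card α : ℝ) - 1 ≠ 0 := by linarith
  field_simp

lemma uni2_of_const {ℓ : List (Op α)} (h : ∀ f, ∃ c, ∀ x y, x ≠ y → E2 ℓ f x y = c) :
    Uni2 ℓ := by
  intro f x y hxy
  obtain ⟨c, hc⟩ := h f
  exact E2_eq_avg hc hxy

lemma avg2_congr {f g : α → α → ℝ} (h : ∀ x y, x ≠ y → f x y = g x y) :
    avg2 f = avg2 g := by
  unfold avg2
  congr 1
  exact sum_congr rfl (fun x _ => rowSum_congr h x)

/-- a strong 2-shuffle on at least two points is a strong 1-shuffle; on one point every list is -/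
lemma Uni2.uni1 {ℓ : List (Op α)} (h : Uni2 ℓ) : Uni1 ℓ := by
  intro g x
  by_cases hα : ∃ y, x ≠ y
  · refine E1_eq_avg (c := avg2 (fun x _ => g x)) ?_ x
    intro z
    obtain ⟨y, hy⟩ := hα
    obtain ⟨w, hw⟩ : ∃ w, z ≠ w := by
      by_cases hzx : z = x
      · exact ⟨y, hzx ▸ hy⟩
      · exact ⟨x, hzx⟩
    rw [← h (fun x _ => g x) z w hw, E2_fst]
  · push Not at hα
    refine E1_eq_avg (c := g x) ?_ x
    intro z
    have hz : z = x := (hα z).symm
    have : ∀ ℓ : List (Op α), E1 ℓ g z = g x := by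
      intro ℓ
      induction ℓ with
      | nil => rw [E1_nil, hz]
      | cons o ℓ ih =>
        have hs : Equiv.swap o.a o.b z = z := by rw [← hα (Equiv.swap o.a o.b z), hz]
        rw [E1_cons, hs, ih]; ring
    exact this ℓ

end

/-! ### Transport along an equivalence -/

section transport
variable {α γ : Type*} [DecidableEq α] [DecidableEq γ] [Fintype α] [Fintype γ]

lemma Uni2.transport {ℓ : List (Op α)} (h : Uni2 ℓ) (e : α ≃ γ) :
    Uni2 (ℓ.map (Op.map e)) := by
  apply uni2_of_const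
  intro f
  refine ⟨avg2 (fun x y => f (e x) (e y)), ?_⟩
  intro x y hxy
  have h1 := E2_lift e.injective ℓ f (e.symm x) (e.symm y)
  rw [e.apply_symm_apply, e.apply_symm_apply] at h1
  rw [h1]
  exact h _ _ _ (fun h' => hxy (e.symm.injective h'))

end transport

/-- there is a strong 2-shuffle of length at most `L` on `α` -/
def Has (α : Type*) [DecidableEq α] [Fintype α] (L : ℕ) : Prop :=
  ∃ ℓ : List (Op α), Ok ℓ ∧ Uni2 ℓ ∧ ℓ.length ≤ L

lemma Has.transport {α γ : Type*} [DecidableEq α] [DecidableEq γ] [Fintype α] [Fintype γ]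
    {L : ℕ} (h : Has α L) (e : α ≃ γ) : Has γ L := by
  obtain ⟨ℓ, h1, h2, h3⟩ := h
  exact ⟨ℓ.map (Op.map e), h1.lift e.injective, h2.transport e, by simpa using h3⟩

lemma Has.mono {α : Type*} [DecidableEq α] [Fintype α] {L L' : ℕ} (h : Has α L) (hL : L ≤ L') :
    Has α L' := by
  obtain ⟨ℓ, h1, h2, h3⟩ := h
  exact ⟨ℓ, h1, h2, h3.trans hL⟩

end Q292.Sh
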