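import Pool.Agent.Q292.Sh.Layer

/-!
# The butterfly network on an elementary abelian 2-group
-/

namespace Q292.Sh

open Finset

section
variable {β : Type*} [AddCommGroup β] [DecidableEq β] [Fintype β]

/-- the layers of the translations by the vectors of `vs`, all with rate one half -/
noncomputable def bf (vs : List β) : List (Op β) :=
  vs.flatMap (fun v => layer (fun x => x + v) (fun _ => 1 / 2))

lemma bf_length (vs : List β) : (bf vs).length ≤ vs.length * Fintype.card β := by
  induction vs with
  | nil => simp [bf]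
  | cons v vs ih =>
    have h1 := layer_length (fun x : β => x + v) (fun _ => (1 / 2 : ℝ))
    have h2 : (bf (v :: vs)).length
        = (layer (fun x : β => x + v) (fun _ => (1 / 2 : ℝ))).length + (bf vs).length := by
      simp [bf]
    rw [h2, List.length_cons, add_mul, one_mul]
    omega

lemma bf_ok (vs : List β) : Ok (bf vs) := by
  intro o ho
  obtain ⟨v, _, hv⟩ := List.mem_flatMap.1 ho
  exact layer_ok (fun _ => by norm_num) (fun _ => by norm_num) o hv

def Inv2 (f : β → β → ℝ) (w : β) : Prop := ∀ x y, x ≠ y → f (x + w) (y + w) = f x y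

def Inv1 (g : β → ℝ) (w : β) : Prop := ∀ x, g (x + w) = g x

variable (h2 : ∀ x : β, x + x = 0)

include h2

lemma inv1_self (g : β → ℝ) (v : β) :
    Inv1 (E1 (layer (fun x : β => x + v) (fun _ => (1 / 2 : ℝ))) g) v := by
  have hvv : ∀ x : β, x + v + v = x := fun x => by rw [add_assoc, h2, add_zero]
  intro x
  rw [E1_layer (τ := fun x : β => x + v) (p := fun _ => (1 / 2 : ℝ)) hvv (fun _ => rfl), E1_layer (τ := fun x : β => x + v) (p := fun _ => (1 / 2 : ℝ)) hvv (fun _ => rfl), hvv]
  ring

lemma inv1_layer {g : β → ℝ} {w : β} (v : β) (h : Inv1 g w) :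
    Inv1 (E1 (layer (fun x : β => x + v) (fun _ => (1 / 2 : ℝ))) g) w := by
  have hvv : ∀ x : β, x + v + v = x := fun x => by rw [add_assoc, h2, add_zero]
  intro x
  rw [E1_layer (τ := fun x : β => x + v) (p := fun _ => (1 / 2 : ℝ)) hvv (fun _ => rfl), E1_layer (τ := fun x : β => x + v) (p := fun _ => (1 / 2 : ℝ)) hvv (fun _ => rfl), h x,
    add_right_comm x w v, h (x + v)]

lemma inv2_self (f : β → β → ℝ) (v : β) :
    Inv2 (E2 (layer (fun x : β => x + v) (fun _ => (1 / 2 : ℝ))) f) v := by
  have hvv : ∀ x : β, x + v + v = x := fun x => by rw [add_assoc, h2, add_zero]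
  intro x y hxy
  rw [E2_layer (τ := fun x : β => x + v) (p := fun _ => (1 / 2 : ℝ)) hvv (fun _ => rfl) f hxy, E2_layer (τ := fun x : β => x + v) (p := fun _ => (1 / 2 : ℝ)) hvv (fun _ => rfl) f
    (fun h => hxy (add_right_cancel h))]
  unfold layF
  simp only [hvv]
  by_cases h : y = x + v
  · have h' : y + v = x := by rw [h, hvv]
    rw [if_pos h, if_pos h', h', ← h]; ring
  · have h' : ¬ y + v = x := fun h'' => h (by rw [← h'', hvv])
    rw [if_neg h, if_neg h']; ring

lemma inv2_layer {f : β → β → ℝ} {w : β} (v : β) (h : Inv2 f w) :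
    Inv2 (E2 (layer (fun x : β => x + v) (fun _ => (1 / 2 : ℝ))) f) w := by
  have hvv : ∀ x : β, x + v + v = x := fun x => by rw [add_assoc, h2, add_zero]
  intro x y hxy
  rw [E2_layer (τ := fun x : β => x + v) (p := fun _ => (1 / 2 : ℝ)) hvv (fun _ => rfl) f hxy, E2_layer (τ := fun x : β => x + v) (p := fun _ => (1 / 2 : ℝ)) hvv (fun _ => rfl) f
    (fun h => hxy (add_right_cancel h))]
  unfold layF
  simp only
  by_cases h1 : y = x + v
  · have h' : y + w = x + w + v := by rw [h1, add_right_comm]
    rw [if_pos h1, if_pos h', h x y hxy, h y x hxy.symm]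
  · have h' : ¬ y + w = x + w + v := fun h'' => h1 (by
      rw [add_right_comm] at h''; exact add_right_cancel h'')
    rw [if_neg h1, if_neg h', add_right_comm x w v, add_right_comm y w v, h x y hxy,
      h (x + v) y (fun h'' => h1 h''.symm), h x (y + v) (fun h'' => h1 (by rw [h'', hvv])),
      h (x + v) (y + v) (fun h'' => hxy (add_right_cancel h''))]

lemma bf_inv1 (vs : List β) (g : β → ℝ) : ∀ v ∈ vs, Inv1 (E1 (bf vs) g) v := by
  induction vs with
  | nil => intro v hv; simp at hv
  | cons u vs ih =>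
    have h3 : E1 (bf (u :: vs)) g
        = E1 (layer (fun x : β => x + u) (fun _ => (1 / 2 : ℝ))) (E1 (bf vs) g) := by
      funext x
      rw [← E1_append]; rfl
    intro v hv
    rw [h3]
    rcases List.mem_cons.1 hv with rfl | hv
    · exact inv1_self h2 _ _
    · exact inv1_layer h2 _ (ih v hv)

lemma bf_inv2 (vs : List β) (f : β → β → ℝ) : ∀ v ∈ vs, Inv2 (E2 (bf vs) f) v := by
  induction vs with
  | nil => intro v hv; simp at hv
  | cons u vs ih =>
    have h3 : E2 (bf (u :: vs)) f
        = E2 (layer (fun x : β => x + u) (fun _ => (1 / 2 : ℝ))) (E2 (bf vs) f) := by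
      funext x y
      rw [← E2_append]; rfl
    intro v hv
    rw [h3]
    rcases List.mem_cons.1 hv with rfl | hv
    · exact inv2_self h2 _ _
    · exact inv2_layer h2 _ (ih v hv)

/-- the subgroup of the translations leaving `f` invariant -/
def grp2 (f : β → β → ℝ) : AddSubgroup β where
  carrier := {w | Inv2 f w}
  add_mem' := by
    intro a b ha hb x y hxy
    rw [← add_assoc, ← add_assoc, hb _ _ (fun h => hxy (add_right_cancel h)), ha x y hxy]
  zero_mem' := by intro x y _; rw [add_zero, add_zero]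
  neg_mem' := by
    intro a ha
    have : -a = a := neg_eq_of_add_eq_zero_left (h2 a)
    rw [this]; exact ha

def grp1 (g : β → ℝ) : AddSubgroup β where
  carrier := {w | Inv1 g w}
  add_mem' := by
    intro a b ha hb x
    rw [← add_assoc, hb, ha]
  zero_mem' := by intro x; rw [add_zero]
  neg_mem' := by
    intro a ha
    have : -a = a := neg_eq_of_add_eq_zero_left (h2 a)
    rw [this]; exact ha

variable {vs : List β} (hvs : ∀ A : AddSubgroup β, (∀ v ∈ vs, v ∈ A) → ∀ w, w ∈ A)

include hvs

lemma bf_translate (f : β → β → ℝ) (w : β) {x y : β} (hxy : x ≠ y) :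
    E2 (bf vs) f (x + w) (y + w) = E2 (bf vs) f x y :=
  hvs (grp2 h2 (E2 (bf vs) f)) (fun v hv => bf_inv2 h2 vs f v hv) w x y hxy

lemma bf_uni1 : Uni1 (bf vs) := by
  intro g x
  refine E1_eq_avg (c := E1 (bf vs) g 0) ?_ x
  intro z
  have h := hvs (grp1 h2 (E1 (bf vs) g)) (fun v hv => bf_inv1 h2 vs g v hv) z 0
  rw [zero_add] at h
  exact h

end

end Q292.Sh
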