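import Pool.Agent.Q292.Sh.WLemma

/-!
# The list `W` and the grid recursion
-/

namespace Q292.Sh

open Finset

section
variable {β : Type*} [Field β] [DecidableEq β] [Fintype β]

/-- a good value of the rate of the lazy transpose -/
noncomputable def pT (β : Type*) [Fintype β] : ℝ :=
  if h : 2 ≤ (Fintype.card β : ℝ) then (exists_p (Fintype.card β : ℝ) h).choose else 0

lemma pT_spec (h : 2 ≤ (Fintype.card β : ℝ)) : 0 ≤ pT β ∧ pT β ≤ 1 ∧
    ((Fintype.card β : ℝ) + 1) * ((Fintype.card β : ℝ) - 2) * pT β ^ 2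
      + 2 * ((Fintype.card β : ℝ) + 1) * pT β = (Fintype.card β : ℝ) := by
  unfold pT
  rw [dif_pos h]
  exact (exists_p (Fintype.card β : ℝ) h).choose_spec

/-- the list `W` -/
noncomputable def W (vs : List β) (ℓ₀ : List (Op β)) : List (Op (β × β)) :=
  (par (fun _ : β => bf vs) ++ layer Prod.swap (fun _ : β × β => pT β))
    ++ (parC (fun _ : β => bf vs) ++ par (st vs ℓ₀))

lemma two_le_card : 2 ≤ (Fintype.card β : ℝ) := by
  have := Fintype.one_lt_card (α := β)
  exact_mod_cast this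

lemma W_ok (vs : List β) {ℓ₀ : List (Op β)} (h0 : Ok ℓ₀) : Ok (W vs ℓ₀) := by
  have hp := pT_spec (two_le_card (β := β))
  exact ((par_ok (fun _ => bf_ok vs)).append (layer_ok (fun _ => hp.1) (fun _ => hp.2.1))).append
    ((parC_ok (fun _ => bf_ok vs)).append (par_ok (st_ok h0)))

lemma W_length (vs : List β) (ℓ₀ : List (Op β)) : (W vs ℓ₀).length ≤
    ℓ₀.length + (3 * vs.length + 2) * Fintype.card β ^ 2 := by
  have h1 := layer_length (Prod.swap : β × β → β × β) (fun _ => pT β)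
  have h2 : ∑ i : β, (bf vs).length ≤ Fintype.card β * (vs.length * Fintype.card β) := by
    rw [sum_const, card_univ, smul_eq_mul]
    exact Nat.mul_le_mul_left _ (bf_length vs)
  have h3 : ∑ i : β, (st vs ℓ₀ i).length
      ≤ ℓ₀.length + Fintype.card β * ((vs.length + 1) * Fintype.card β) := by
    refine (sum_le_sum (fun i _ => st_length i)).trans ?_
    rw [sum_add_distrib, Finset.sum_ite_eq' univ (0 : β) (fun _ => ℓ₀.length),
      if_pos (mem_univ _), sum_const, card_univ, smul_eq_mul]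
  rw [Fintype.card_prod] at h1
  unfold W
  simp only [List.length_append, par_length, parC_length]
  nlinarith

variable {vs : List β} {ℓ₀ : List (Op β)}
  (h2 : ∀ x : β, x + x = 0) (hvs : ∀ A : AddSubgroup β, (∀ v ∈ vs, v ∈ A) → ∀ w, w ∈ A)
  (hu : Uni2 ℓ₀)

include h2 hvs hu

lemma W_two (φ : β → β → ℝ) {x y : β × β} (hxy : x ≠ y) :
    E2 (W vs ℓ₀) (fun x y => φ x.2 y.2) x y = avg2 (fun x y : β × β => φ x.2 y.2) := by
  refine E2_eq_avg (c := avgV φ + (avgD φ - avgV φ) * (1 / ((Fintype.card β : ℝ) + 1))) ?_ hxy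
  intro x y hxy
  unfold W
  rw [E2_append, E2_congr _ (fun x y h => kappa_stage h2 hvs hu φ h) hxy,
    E2_add _ (fun _ _ => avgV φ) (fun x y => (avgD φ - avgV φ) * sc x y), E2_const, E2_mul,
    rho_T h2 hvs (pT_spec (two_le_card (β := β))).2.2 hxy]

lemma W_one (g : β → ℝ) (x : β × β) :
    E1 (W vs ℓ₀) (fun x => g x.2) x = avg1 (fun x : β × β => g x.2) := by
  refine E1_eq_avg (c := avg2 (fun x _ : β × β => g x.2)) ?_ x
  intro z
  have : Nontrivial (β × β) := inferInstance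
  obtain ⟨w, hw⟩ := exists_ne z
  rw [← W_two h2 hvs hu (fun u _ => g u) hw.symm, E2_fst _ (fun x : β × β => g x.2)]

omit h2 hvs in
/-- performing a strong 2-shuffle in every column produces a function of the columns -/
lemma columns (f : β × β → β × β → ℝ) : ∃ φ : β → β → ℝ, ∀ x y, x ≠ y →
    E2 (parC (fun _ : β => ℓ₀)) f x y = φ x.2 y.2 := by
  refine ⟨fun u w => if u = w then avg2 (fun a b => f (a, u) (b, u))
    else avg1 (fun a => avg1 (fun b => f (a, u) (b, w))), ?_⟩
  rintro ⟨i, u⟩ ⟨k, w⟩ hxy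
  by_cases h : u = w
  · subst h
    have hik : i ≠ k := fun h => hxy (by rw [h])
    rw [E2_parC_same]
    simp only [if_true]
    exact hu _ _ _ hik
  · rw [E2_parC_diff _ _ h]
    simp only [if_neg h]
    have h1 : ∀ a, E1 ℓ₀ (fun b => f (a, u) (b, w)) k = avg1 (fun b => f (a, u) (b, w)) :=
      fun a => hu.uni1 _ _
    simp only [h1]
    exact hu.uni1 _ _

/-- **Grid theorem.** -/
theorem grid_uni2 : Uni2 (W vs ℓ₀ ++ parC (fun _ : β => ℓ₀)) := by
  apply uni2_of_const
  intro f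
  obtain ⟨φ, hφ⟩ := columns hu f
  refine ⟨avg2 (fun x y : β × β => φ x.2 y.2), ?_⟩
  intro x y hxy
  rw [E2_append, E2_congr _ hφ hxy, W_two h2 hvs hu φ hxy]

omit hu in
theorem grid_has {L : ℕ} (h : Has β L) :
    Has (β × β) ((Fintype.card β + 1) * L + (3 * vs.length + 2) * Fintype.card β ^ 2) := by
  obtain ⟨ℓ₀, hok, hu, hlen⟩ := h
  refine ⟨W vs ℓ₀ ++ parC (fun _ : β => ℓ₀), (W_ok vs hok).append (parC_ok (fun _ => hok)),
    grid_uni2 h2 hvs hu, ?_⟩
  rw [List.length_append, parC_length, sum_const, card_univ, smul_eq_mul]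
  have h1 := W_length vs ℓ₀
  have h3 : Fintype.card β * ℓ₀.length ≤ Fintype.card β * L := Nat.mul_le_mul_left _ hlen
  nlinarith

/-! ### The list `W ++ κ` used in the odd step -/

/-- `W` followed by butterflies in the columns -/
noncomputable def W' (vs : List β) (ℓ₀ : List (Op β)) : List (Op (β × β)) :=
  W vs ℓ₀ ++ parC (fun _ : β => bf vs)

lemma W'_two (φ : β → β → ℝ) {x y : β × β} (hxy : x ≠ y) :
    E2 (W' vs ℓ₀) (fun x y => φ x.2 y.2) x y = avg2 (fun x y : β × β => φ x.2 y.2) := by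
  unfold W'
  rw [E2_append]
  have h1 : ∀ x y : β × β, x ≠ y →
      E2 (parC (fun _ : β => bf vs)) (fun x y => φ x.2 y.2) x y = φ x.2 y.2 := by
    rintro ⟨i, u⟩ ⟨k, w⟩ _
    by_cases h : u = w
    · subst h
      rw [E2_parC_same]
      exact E2_const (bf vs) (φ u u) i k
    · rw [E2_parC_diff _ _ h]
      simp only [E1_const]
  rw [E2_congr _ h1 hxy, W_two h2 hvs hu φ hxy]

lemma W'_uni1 : Uni1 (W' vs ℓ₀) := by
  intro g x
  refine E1_eq_avg (c := avg1 (fun x : β × β => avg1 (fun a => g (a, x.2)))) ?_ x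
  intro z
  unfold W'
  rw [E1_append]
  have h1 : E1 (parC (fun _ : β => bf vs)) g = fun x => avg1 (fun a => g (a, x.2)) := by
    funext x
    obtain ⟨i, u⟩ := x
    rw [E1_parC, bf_uni1 h2 hvs]
  rw [h1]
  exact W_one h2 hvs hu (fun u => avg1 (fun a => g (a, u))) z

omit h2 hvs hu in
lemma W'_ok (h0 : Ok ℓ₀) : Ok (W' vs ℓ₀) :=
  (W_ok vs h0).append (parC_ok (fun _ => bf_ok vs))

omit h2 hvs hu in
lemma W'_length : (W' vs ℓ₀).length ≤
    ℓ₀.length + (4 * vs.length + 2) * Fintype.card β ^ 2 := by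
  have h1 := W_length vs ℓ₀
  have h2 : ∑ i : β, (bf vs).length ≤ Fintype.card β * (vs.length * Fintype.card β) := by
    rw [sum_const, card_univ, smul_eq_mul]
    exact Nat.mul_le_mul_left _ (bf_length vs)
  unfold W'
  rw [List.length_append, parC_length]
  nlinarith

end

end Q292.Sh
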