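import Pool.Agent.Q292.Sh.Basic

/-!
# Layers: lazy transpositions with pairwise disjoint supports
-/

namespace Q292.Sh

open Finset

section
variable {α : Type*} [DecidableEq α]

/-- the involution of a layer -/
def tau : List (Op α) → α → α
  | [], x => x
  | o :: ℓ, x => if x = o.a then o.b else if x = o.b then o.a else tau ℓ x

/-- the rate function of a layer -/
def rate : List (Op α) → α → ℝ
  | [], _ => 0
  | o :: ℓ, x => if x = o.a then o.p else if x = o.b then o.p else rate ℓ x

/-- the supports are pairwise disjoint -/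
def Disj (ℓ : List (Op α)) : Prop :=
  ℓ.Pairwise (fun o o' => o.a ≠ o'.a ∧ o.a ≠ o'.b ∧ o.b ≠ o'.a ∧ o.b ≠ o'.b)

lemma tau_out {ℓ : List (Op α)} {x : α} (h : ∀ o ∈ ℓ, x ≠ o.a ∧ x ≠ o.b) : tau ℓ x = x := by
  induction ℓ with
  | nil => rfl
  | cons o ℓ ih =>
    have h1 := h o (by simp)
    rw [tau, if_neg h1.1, if_neg h1.2]
    exact ih (fun o' ho' => h o' (List.mem_cons_of_mem _ ho'))

lemma rate_out {ℓ : List (Op α)} {x : α} (h : ∀ o ∈ ℓ, x ≠ o.a ∧ x ≠ o.b) : rate ℓ x = 0 := by
  induction ℓ with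
  | nil => rfl
  | cons o ℓ ih =>
    have h1 := h o (by simp)
    rw [rate, if_neg h1.1, if_neg h1.2]
    exact ih (fun o' ho' => h o' (List.mem_cons_of_mem _ ho'))

/-- the two particle formula of a layer -/
noncomputable def layF (τ : α → α) (r : α → ℝ) (f : α → α → ℝ) (x y : α) : ℝ :=
  if y = τ x then (1 - r x) * f x y + r x * f y x
  else (1 - r x) * (1 - r y) * f x y + r x * (1 - r y) * f (τ x) y
    + (1 - r x) * r y * f x (τ y) + r x * r y * f (τ x) (τ y)

lemma E1_disj {ℓ : List (Op α)} (hd : Disj ℓ) (g : α → ℝ) (x : α) :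
    E1 ℓ g x = (1 - rate ℓ x) * g x + rate ℓ x * g (tau ℓ x) := by
  induction ℓ generalizing x with
  | nil => simp [rate, tau]
  | cons o ℓ ih =>
    have hd' : Disj ℓ := (List.pairwise_cons.1 hd).2
    have ho := (List.pairwise_cons.1 hd).1
    have ha : ∀ o' ∈ ℓ, o.a ≠ o'.a ∧ o.a ≠ o'.b := fun o' h => ⟨(ho o' h).1, (ho o' h).2.1⟩
    have hb : ∀ o' ∈ ℓ, o.b ≠ o'.a ∧ o.b ≠ o'.b :=
      fun o' h => ⟨(ho o' h).2.2.1, (ho o' h).2.2.2⟩
    have ra := rate_out ha
    have rb := rate_out hb
    rw [E1_cons, ih hd', ih hd']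
    by_cases hxa : x = o.a
    · subst hxa
      simp only [Equiv.swap_apply_left, rate, tau, if_true, ra, rb]
      ring
    · by_cases hxb : x = o.b
      · subst hxb
        simp only [Equiv.swap_apply_right, rate, tau, if_true, ra, rb, if_neg hxa]
        ring
      · simp only [Equiv.swap_apply_of_ne_of_ne hxa hxb, rate, tau, if_neg hxa, if_neg hxb]
        ring

lemma E2_disj {ℓ : List (Op α)} (hok : ∀ o ∈ ℓ, o.a ≠ o.b) (hd : Disj ℓ) (f : α → α → ℝ)
    {x y : α} (hxy : x ≠ y) : E2 ℓ f x y = layF (tau ℓ) (rate ℓ) f x y := by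
  induction ℓ generalizing x y with
  | nil =>
    simp [rate, tau, layF, hxy.symm]
  | cons o ℓ ih =>
    have hd' : Disj ℓ := (List.pairwise_cons.1 hd).2
    have ho := (List.pairwise_cons.1 hd).1
    have hab : o.a ≠ o.b := hok o (by simp)
    have hok' : ∀ o ∈ ℓ, o.a ≠ o.b := fun o' h => hok o' (List.mem_cons_of_mem _ h)
    have ha : ∀ o' ∈ ℓ, o.a ≠ o'.a ∧ o.a ≠ o'.b := fun o' h => ⟨(ho o' h).1, (ho o' h).2.1⟩
    have hb : ∀ o' ∈ ℓ, o.b ≠ o'.a ∧ o.b ≠ o'.b :=
      fun o' h => ⟨(ho o' h).2.2.1, (ho o' h).2.2.2⟩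
    have ra := rate_out ha
    have rb := rate_out hb
    have ta := tau_out ha
    have tb := tau_out hb
    -- the point `tau ℓ z` is not in the support of `o` when `z` is not
    have tne : ∀ z, z ≠ o.a → z ≠ o.b → tau ℓ z ≠ o.a ∧ tau ℓ z ≠ o.b := by
      intro z hza hzb
      have key : ∀ ℓ' : List (Op α), (∀ o' ∈ ℓ', o.a ≠ o'.a ∧ o.a ≠ o'.b) →
          (∀ o' ∈ ℓ', o.b ≠ o'.a ∧ o.b ≠ o'.b) → tau ℓ' z ≠ o.a ∧ tau ℓ' z ≠ o.b := by
        intro ℓ'
        induction ℓ' with
        | nil => intro _ _; exact ⟨hza, hzb⟩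
        | cons o' ℓ' ih' =>
          intro h1 h2
          have h3 := h1 o' (by simp)
          have h4 := h2 o' (by simp)
          rw [tau]
          split_ifs
          · exact ⟨h3.2.symm, h4.2.symm⟩
          · exact ⟨h3.1.symm, h4.1.symm⟩
          · exact ih' (fun o'' h => h1 o'' (List.mem_cons_of_mem _ h))
              (fun o'' h => h2 o'' (List.mem_cons_of_mem _ h))
      exact key ℓ ha hb
    rw [E2_cons, ih hok' hd' hxy,
      ih hok' hd' (fun h' => hxy ((Equiv.swap o.a o.b).injective h'))]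
    by_cases hxa : x = o.a
    · subst hxa
      by_cases hyb : y = o.b
      · subst hyb
        have hba := hab.symm
        simp only [Equiv.swap_apply_left, Equiv.swap_apply_right, layF, rate, tau, if_true, ra, rb,
          ta, tb, if_neg hba, if_neg hab]
        ring
      · have hya : y ≠ o.a := fun h => hxy h.symm
        simp only [Equiv.swap_apply_left, Equiv.swap_apply_of_ne_of_ne hya hyb, layF, rate, tau,
          if_true, ra, rb, ta, tb, if_neg hya, if_neg hyb]
        ring
    · by_cases hxb : x = o.b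
      · subst hxb
        by_cases hya : y = o.a
        · subst hya
          have hba := hab.symm
          simp only [Equiv.swap_apply_left, Equiv.swap_apply_right, layF, rate, tau, if_true, ra,
            rb, ta, tb, if_neg hba, if_neg hab]
          ring
        · have hyb : y ≠ o.b := fun h => hxy h.symm
          simp only [Equiv.swap_apply_right, Equiv.swap_apply_of_ne_of_ne hya hyb, layF, rate, tau,
            if_true, ra, rb, ta, tb, if_neg hya, if_neg hyb, if_neg hxa]
          ring
      · rw [Equiv.swap_apply_of_ne_of_ne hxa hxb]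
        have tx := tne x hxa hxb
        by_cases hya : y = o.a
        · subst hya
          simp only [Equiv.swap_apply_left, layF, rate, tau, if_true, ra, rb, ta, tb,
            if_neg hxa, if_neg hxb, if_neg tx.1.symm, if_neg tx.2.symm]
          ring
        · by_cases hyb : y = o.b
          · subst hyb
            simp only [Equiv.swap_apply_right, layF, rate, tau, if_true, ra, rb, ta, tb,
              if_neg hxa, if_neg hxb, if_neg hya, if_neg tx.1.symm, if_neg tx.2.symm]
            ring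
          · rw [Equiv.swap_apply_of_ne_of_ne hya hyb]
            simp only [layF, rate, tau, if_neg hxa, if_neg hxb, if_neg hya, if_neg hyb]
            ring

/-! ### The layer of an involution -/

variable [Fintype α]

/-- one representative of each 2-cycle of `τ` -/
noncomputable def reps (τ : α → α) : List α :=
  (univ.filter (fun x => Fintype.equivFin α x < Fintype.equivFin α (τ x))).toList

/-- the layer of the involution `τ` with rates `p` -/
noncomputable def layer (τ : α → α) (p : α → ℝ) : List (Op α) :=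
  (reps τ).map (fun x => ⟨x, τ x, p x⟩)

lemma mem_reps {τ : α → α} {x : α} :
    x ∈ reps τ ↔ Fintype.equivFin α x < Fintype.equivFin α (τ x) := by
  simp [reps]

lemma layer_length (τ : α → α) (p : α → ℝ) : (layer τ p).length ≤ Fintype.card α := by
  rw [layer, List.length_map, reps, length_toList]
  exact card_le_univ _

lemma layer_ok {τ : α → α} {p : α → ℝ} (h0 : ∀ x, 0 ≤ p x) (h1 : ∀ x, p x ≤ 1) :
    Ok (layer τ p) := by
  intro o ho
  obtain ⟨x, hx, rfl⟩ := List.mem_map.1 ho
  rw [mem_reps] at hx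
  exact ⟨fun h => by simp only at h; rw [← h] at hx; exact lt_irrefl _ hx, h0 x, h1 x⟩

variable {τ : α → α} (hτ : ∀ x, τ (τ x) = x) {p : α → ℝ} (hp : ∀ x, p (τ x) = p x)

include hτ

lemma layer_disj : Disj (layer τ p) := by
  unfold Disj layer
  rw [List.pairwise_map]
  have hnd : (reps τ).Nodup := Finset.nodup_toList _
  refine (hnd.imp_of_mem ?_)
  intro x y hx hy hxy
  rw [mem_reps] at hx hy
  refine ⟨hxy, ?_, ?_, ?_⟩
  · intro h
    simp only at h
    rw [h, hτ] at hx
    exact lt_asymm hx hy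
  · intro h
    simp only at h
    rw [← h, hτ] at hy
    exact lt_asymm hx hy
  · intro h
    simp only at h
    apply hxy
    rw [← hτ x, ← hτ y, h]

include hp in
lemma layer_spec (x : α) : (tau (layer τ p) x = τ x ∧ rate (layer τ p) x = p x) ∨
    (τ x = x ∧ tau (layer τ p) x = x ∧ rate (layer τ p) x = 0) := by
  have hd : Disj (layer τ p) := layer_disj hτ
  have key : ∀ ℓ : List (Op α), Disj ℓ → ∀ o ∈ ℓ, o.a ≠ o.b →
      tau ℓ o.a = o.b ∧ tau ℓ o.b = o.a ∧ rate ℓ o.a = o.p ∧ rate ℓ o.b = o.p := by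
    intro ℓ
    induction ℓ with
    | nil => intro _ o ho; simp at ho
    | cons o' ℓ ih =>
      intro hd o ho hab
      rcases List.mem_cons.1 ho with rfl | ho
      · simp [tau, rate, hab.symm]
      · have h1 := (List.pairwise_cons.1 hd).1 o ho
        have h2 := ih (List.pairwise_cons.1 hd).2 o ho hab
        rw [tau, tau, rate, rate, if_neg h1.1.symm, if_neg h1.2.2.1.symm, if_neg h1.2.1.symm,
          if_neg h1.2.2.2.symm, if_neg h1.1.symm, if_neg h1.2.2.1.symm, if_neg h1.2.1.symm,
          if_neg h1.2.2.2.symm]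
        exact h2
  rcases lt_trichotomy (Fintype.equivFin α x) (Fintype.equivFin α (τ x)) with h | h | h
  · left
    have hne : x ≠ τ x := fun h' => by rw [← h'] at h; exact lt_irrefl _ h
    have hm : (⟨x, τ x, p x⟩ : Op α) ∈ layer τ p := List.mem_map.2 ⟨x, mem_reps.2 h, rfl⟩
    have h1 := key _ hd _ hm hne
    exact ⟨h1.1, h1.2.2.1⟩
  · right
    have hx : τ x = x := ((Fintype.equivFin α).injective h).symm
    have hout : ∀ o ∈ layer τ p, x ≠ o.a ∧ x ≠ o.b := by
      intro o ho
      obtain ⟨z, hz, rfl⟩ := List.mem_map.1 ho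
      rw [mem_reps] at hz
      have hzt : z ≠ τ z := fun h' => by rw [← h'] at hz; exact lt_irrefl _ hz
      refine ⟨?_, ?_⟩
      · rintro h'
        simp only at h'
        rw [← h'] at hzt
        exact hzt hx.symm
      · intro h'
        simp only at h'
        apply hzt
        have : τ x = z := by rw [h', hτ]
        rw [← this, hx, hx]
    exact ⟨hx, tau_out hout, rate_out hout⟩
  · left
    have hne : τ x ≠ x := fun h' => by rw [h'] at h; exact lt_irrefl _ h
    have hm : (⟨τ x, x, p x⟩ : Op α) ∈ layer τ p := by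
      refine List.mem_map.2 ⟨τ x, mem_reps.2 (by rw [hτ]; exact h), ?_⟩
      rw [hτ, hp]
    have h1 := key _ hd _ hm hne
    exact ⟨h1.2.1, h1.2.2.2⟩

include hp in
lemma E1_layer (g : α → ℝ) (x : α) :
    E1 (layer τ p) g x = (1 - p x) * g x + p x * g (τ x) := by
  rw [E1_disj (layer_disj hτ)]
  rcases layer_spec hτ hp x with ⟨h1, h2⟩ | ⟨h1, h2, h3⟩
  · rw [h1, h2]
  · rw [h2, h3, h1]; ring

include hp in
lemma E2_layer (f : α → α → ℝ) {x y : α} (hxy : x ≠ y) :
    E2 (layer τ p) f x y = layF τ p f x y := by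
  have hok : ∀ o ∈ layer τ p, o.a ≠ o.b := by
    intro o ho
    obtain ⟨x, hx, rfl⟩ := List.mem_map.1 ho
    rw [mem_reps] at hx
    exact fun h => by simp only at h; rw [← h] at hx; exact lt_irrefl _ hx
  rw [E2_disj hok (layer_disj hτ) f hxy]
  rcases layer_spec hτ hp x with ⟨h1, h2⟩ | ⟨h1, h2, h3⟩
  · rcases layer_spec hτ hp y with ⟨k1, k2⟩ | ⟨k1, k2, k3⟩
    · simp only [layF, h1, h2, k1, k2]
    · have hyx : y ≠ τ x := by
        intro h; apply hxy; rw [← hτ x, ← h, k1]
      simp only [layF, h1, h2, k1, k2, k3, if_neg hyx]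
      ring
  · rcases layer_spec hτ hp y with ⟨k1, k2⟩ | ⟨k1, k2, k3⟩
    · simp only [layF, h1, h2, h3, k1, k2, if_neg hxy.symm]
      ring
    · simp only [layF, h1, h2, h3, k1, k2, k3, if_neg hxy.symm]
      ring

end

end Q292.Sh
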