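import Pool.Agent.Q292.Sh.Layer

/-!
# The merge lemma
-/

namespace Q292.Sh

open Finset

section blocks
variable {A B : Type*} [DecidableEq A] [DecidableEq B] (ℓA : List (Op A)) (ℓB : List (Op B))
  (f : A ⊕ B → A ⊕ B → ℝ)

private lemma nl (y : B) : ∀ x : A, (Sum.inl x : A ⊕ B) ≠ Sum.inr y := fun _ h => by cases h
private lemma nr (y : A) : ∀ x : B, (Sum.inr x : A ⊕ B) ≠ Sum.inl y := fun _ h => by cases h

lemma blk_ll (x y : A) : E2 (ℓA.map (Op.map Sum.inl) ++ ℓB.map (Op.map Sum.inr)) f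
    (Sum.inl x) (Sum.inl y) = E2 ℓA (fun x y => f (Sum.inl x) (Sum.inl y)) x y := by
  rw [E2_append, E2_lift Sum.inl_injective]
  simp only [E2_lift_out ℓB f (nr _) (nr _)]

lemma blk_rr (x y : B) : E2 (ℓA.map (Op.map Sum.inl) ++ ℓB.map (Op.map Sum.inr)) f
    (Sum.inr x) (Sum.inr y) = E2 ℓB (fun x y => f (Sum.inr x) (Sum.inr y)) x y := by
  rw [E2_append, E2_lift_out _ _ (nl _) (nl _), E2_lift Sum.inr_injective]

lemma blk_lr (x : A) (y : B) : E2 (ℓA.map (Op.map Sum.inl) ++ ℓB.map (Op.map Sum.inr)) f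
    (Sum.inl x) (Sum.inr y)
      = E1 ℓA (fun x => E1 ℓB (fun y => f (Sum.inl x) (Sum.inr y)) y) x := by
  rw [E2_append, E2_lift_fst Sum.inl_injective _ _ _ (nl _)]
  simp only [E2_lift_snd Sum.inr_injective ℓB f _ (nr _)]

lemma blk_rl (x : B) (y : A) : E2 (ℓA.map (Op.map Sum.inl) ++ ℓB.map (Op.map Sum.inr)) f
    (Sum.inr x) (Sum.inl y)
      = E1 ℓA (fun y => E1 ℓB (fun x => f (Sum.inr x) (Sum.inl y)) x) y := by
  rw [E2_append, E2_lift_snd Sum.inl_injective _ _ _ (nl _)]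
  simp only [E2_lift_fst Sum.inr_injective ℓB f _ (nr _)]

end blocks

/-- bilinear averages over distinct pairs -/
lemma avg2_bilin {α : Type*} [Fintype α] [DecidableEq α] (h : α → ℝ) {n : ℝ}
    (hn : n = (Fintype.card α : ℝ)) (hn1 : 1 < n) (c0 c1 c2 c3 : ℝ) :
    avg2 (fun x y : α => c0 + c1 * h x + c2 * h y + c3 * (h x * h y))
      = (c0 * (n * (n - 1)) + (c1 + c2) * (n - 1) * (∑ x, h x)
        + c3 * ((∑ x, h x) ^ 2 - ∑ x, h x ^ 2)) / (n * (n - 1)) := by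
  rw [avg2, ← hn]
  congr 1
  have h1 : ∀ x : α, rowSum (fun x y : α => c0 + c1 * h x + c2 * h y + c3 * (h x * h y)) x
      = (c0 * (n - 1) + c2 * (∑ y, h y)) + (c1 * (n - 1) - c2 + c3 * (∑ y, h y)) * h x
        - c3 * h x ^ 2 := by
    intro x
    have h2 : ∑ y, (c0 + c1 * h x + c2 * h y + c3 * (h x * h y))
        = n * (c0 + c1 * h x) + c2 * (∑ y, h y) + c3 * (h x * ∑ y, h y) := by
      rw [sum_add_distrib, sum_add_distrib, ← mul_sum, ← mul_sum, ← mul_sum, sum_const, card_univ,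
        nsmul_eq_mul, ← hn]
    rw [← Finset.add_sum_erase _ _ (mem_univ x)] at h2
    unfold rowSum
    linear_combination h2
  simp only [h1]
  rw [sum_sub_distrib, sum_add_distrib, ← mul_sum, ← mul_sum, sum_const, card_univ, nsmul_eq_mul,
    ← hn]
  ring

section
variable {Q R : Type} [Fintype Q] [Fintype R] [DecidableEq Q] [DecidableEq R]

/-- rates on `Q ⊕ R`: `p` on `Q`, zero on `R` -/
def ext0 (p : Q → ℝ) : Q ⊕ R → ℝ := Sum.elim p (fun _ => 0)

/-- rates on `(Q ⊕ R) ⊕ Q` -/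
def extr (p : Q → ℝ) : (Q ⊕ R) ⊕ Q → ℝ := Sum.elim (ext0 p) p

/-- matching involution of `(Q ⊕ R) ⊕ Q` -/
def mtau : (Q ⊕ R) ⊕ Q → (Q ⊕ R) ⊕ Q
  | .inl (.inl q) => .inr q
  | .inl (.inr r) => .inl (.inr r)
  | .inr q => .inl (.inl q)

/-- `DP`, `DQ` in the two blocks, then the matched lazy transpositions, then `SP`, `SQ` -/
noncomputable def mergeList (p : Q → ℝ) (DP SP : List (Op (Q ⊕ R))) (DQ SQ : List (Op Q)) :
    List (Op ((Q ⊕ R) ⊕ Q)) :=
  (DP.map (Op.map Sum.inl) ++ DQ.map (Op.map Sum.inr)) ++ layer mtau (extr p) ++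
    (SP.map (Op.map Sum.inl) ++ SQ.map (Op.map Sum.inr))

omit [Fintype Q] [Fintype R] [DecidableEq Q] [DecidableEq R] in
lemma mtau_mtau (x : (Q ⊕ R) ⊕ Q) : mtau (mtau x) = x := by
  rcases x with (q | r) | q <;> rfl

omit [Fintype Q] [Fintype R] [DecidableEq Q] [DecidableEq R] in
lemma extr_mtau (p : Q → ℝ) (x : (Q ⊕ R) ⊕ Q) : extr p (mtau x) = extr p x := by
  rcases x with (q | r) | q <;> rfl

/-- block constant functions of two points -/
def blockF (AP AQ CPQ CQP : ℝ) : (Q ⊕ R) ⊕ Q → (Q ⊕ R) ⊕ Q → ℝ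
  | .inl _, .inl _ => AP
  | .inl _, .inr _ => CPQ
  | .inr _, .inl _ => CQP
  | .inr _, .inr _ => AQ

omit [Fintype Q] [Fintype R] in
lemma lay_ll (p : Q → ℝ) (AP AQ CPQ CQP : ℝ) {x y : Q ⊕ R} (hxy : x ≠ y) :
    layF mtau (extr p) (blockF AP AQ CPQ CQP) (Sum.inl x) (Sum.inl y)
      = AP + (CQP - AP) * ext0 p x + (CPQ - AP) * ext0 p y
        + (AP + AQ - CPQ - CQP) * (ext0 p x * ext0 p y) := by
  have hne : ¬ (Sum.inl y : (Q ⊕ R) ⊕ Q) = mtau (Sum.inl x) := by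
    rcases x with q | r
    · intro h; cases h
    · intro h; exact hxy (Sum.inl_injective h).symm
  unfold layF
  rw [if_neg hne]
  rcases x with q | r <;> rcases y with q' | r' <;>
    simp [mtau, extr, ext0, blockF] <;> ring

omit [Fintype Q] [Fintype R] in
lemma lay_rr (p : Q → ℝ) (AP AQ CPQ CQP : ℝ) (x y : Q) :
    layF mtau (extr p) (blockF AP AQ CPQ CQP) (Sum.inr x : (Q ⊕ R) ⊕ Q) (Sum.inr y)
      = AQ + (CPQ - AQ) * p x + (CQP - AQ) * p y
        + (AP + AQ - CPQ - CQP) * (p x * p y) := by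
  have hne : ¬ (Sum.inr y : (Q ⊕ R) ⊕ Q) = mtau (Sum.inr x) := by
    intro h; cases h
  unfold layF
  rw [if_neg hne]
  simp [mtau, extr, ext0, blockF]
  ring

omit [Fintype Q] [Fintype R] in
lemma lay_lr (p : Q → ℝ) (AP AQ CPQ CQP : ℝ) (x : Q ⊕ R) (y : Q) :
    layF mtau (extr p) (blockF AP AQ CPQ CQP) (Sum.inl x) (Sum.inr y)
      = (CPQ + (AQ - CPQ) * ext0 p x + (AP - CPQ) * p y
        + (CPQ + CQP - AP - AQ) * (ext0 p x * p y))
        + (if x = Sum.inl y then (CPQ + CQP - AP - AQ) * (p y - p y ^ 2) else 0) := by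
  unfold layF
  by_cases h : x = Sum.inl y
  · subst h
    rw [if_pos (show (Sum.inr y : (Q ⊕ R) ⊕ Q) = mtau (Sum.inl (Sum.inl y)) from rfl),
      if_pos rfl]
    simp [extr, ext0, blockF]
    ring
  · have hne : ¬ (Sum.inr y : (Q ⊕ R) ⊕ Q) = mtau (Sum.inl x) := by
      rcases x with q | r
      · intro h'; apply h; rw [Sum.inr_injective h']
      · intro h'; cases h'
    rw [if_neg hne, if_neg h]
    rcases x with q | r <;> simp [mtau, extr, ext0, blockF] <;> ring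

omit [Fintype Q] [Fintype R] in
lemma lay_rl (p : Q → ℝ) (AP AQ CPQ CQP : ℝ) (x : Q) (y : Q ⊕ R) :
    layF mtau (extr p) (blockF AP AQ CPQ CQP) (Sum.inr x) (Sum.inl y)
      = (CQP + (AP - CQP) * p x + (AQ - CQP) * ext0 p y
        + (CPQ + CQP - AP - AQ) * (p x * ext0 p y))
        + (if y = Sum.inl x then (CPQ + CQP - AP - AQ) * (p x - p x ^ 2) else 0) := by
  unfold layF
  by_cases h : y = Sum.inl x
  · subst h
    rw [if_pos (show (Sum.inl (Sum.inl x) : (Q ⊕ R) ⊕ Q) = mtau (Sum.inr x) from rfl),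
      if_pos rfl]
    simp [extr, ext0, blockF]
    ring
  · have hne : ¬ (Sum.inl y : (Q ⊕ R) ⊕ Q) = mtau (Sum.inr x) := by
      intro h'; apply h; exact Sum.inl_injective h'
    rw [if_neg hne, if_neg h]
    rcases y with q | r <;> simp [mtau, extr, ext0, blockF] <;> ring

omit [DecidableEq Q] [DecidableEq R] in
lemma sum_ext0 (p : Q → ℝ) : ∑ x : Q ⊕ R, ext0 p x = ∑ q, p q := by
  rw [Fintype.sum_sum_type]; simp [ext0]

omit [DecidableEq Q] [DecidableEq R] in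
lemma sum_ext0_sq (p : Q → ℝ) : ∑ x : Q ⊕ R, ext0 p x ^ 2 = ∑ q, p q ^ 2 := by
  rw [Fintype.sum_sum_type]; simp [ext0]

/-- the mixed double sum -/
lemma mixed_sum (p : Q → ℝ) {a b : ℝ} (ha : a = (Fintype.card (Q ⊕ R) : ℝ))
    (hb : b = (Fintype.card Q : ℝ)) (c0 c1 c2 c3 : ℝ) :
    ∑ x : Q ⊕ R, ∑ y : Q, ((c0 + c1 * ext0 p x + c2 * p y + c3 * (ext0 p x * p y))
      + (if x = Sum.inl y then c3 * (p y - p y ^ 2) else 0))
      = c0 * (a * b) + c1 * b * (∑ q, p q) + c2 * a * (∑ q, p q) + c3 * (∑ q, p q) ^ 2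
        + c3 * ((∑ q, p q) - ∑ q, p q ^ 2) := by
  have h1 : ∑ x : Q ⊕ R, ∑ y : Q, (if x = Sum.inl y then c3 * (p y - p y ^ 2) else 0)
      = c3 * ((∑ q, p q) - ∑ q, p q ^ 2) := by
    rw [sum_comm, mul_sub, mul_sum, mul_sum, ← sum_sub_distrib]
    refine sum_congr rfl (fun y _ => ?_)
    rw [Finset.sum_ite_eq' univ (Sum.inl y : Q ⊕ R) (fun _ => c3 * (p y - p y ^ 2)),
      if_pos (mem_univ _)]
    ring
  have h2 : ∀ x : Q ⊕ R, ∑ y : Q, (c0 + c1 * ext0 p x + c2 * p y + c3 * (ext0 p x * p y))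
      = (b * c0 + c2 * ∑ q, p q) + (b * c1 + c3 * ∑ q, p q) * ext0 p x := by
    intro x
    rw [sum_add_distrib, sum_add_distrib, ← mul_sum, ← mul_sum, ← mul_sum, sum_const, card_univ,
      nsmul_eq_mul, ← hb]
    ring
  have h3 : ∑ x : Q ⊕ R, ∑ y : Q, (c0 + c1 * ext0 p x + c2 * p y + c3 * (ext0 p x * p y))
      = c0 * (a * b) + c1 * b * (∑ q, p q) + c2 * a * (∑ q, p q) + c3 * (∑ q, p q) ^ 2 := by
    simp only [h2]
    rw [sum_add_distrib, ← mul_sum, sum_ext0, sum_const, card_univ, nsmul_eq_mul, ← ha]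
    ring
  rw [← h1, ← h3, ← sum_add_distrib]
  refine sum_congr rfl (fun x _ => ?_)
  rw [← sum_add_distrib]

theorem merge_core (p : Q → ℝ) {a b : ℝ} (ha : a = (Fintype.card (Q ⊕ R) : ℝ))
    (hb : b = (Fintype.card Q : ℝ)) (hb1 : 1 ≤ b)
    (hS1 : (a + b) * ∑ q, p q = a * b)
    (hS2 : (a + b) ^ 2 * (a + b - 1) * ∑ q, p q ^ 2 = a * b * ((a + b) * (a + b - 1) - a * b))
    {DP SP : List (Op (Q ⊕ R))} {DQ SQ : List (Op Q)}
    (hDP1 : Uni1 DP) (hDP2 : ∀ Φ : ℝ → ℝ → ℝ, ∀ x y, x ≠ y →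
      E2 DP (fun x y => Φ (ext0 p x) (ext0 p y)) x y
        = avg2 (fun x y : Q ⊕ R => Φ (ext0 p x) (ext0 p y)))
    (hDQ1 : Uni1 DQ) (hDQ2 : ∀ Φ : ℝ → ℝ → ℝ, ∀ x y, x ≠ y →
      E2 DQ (fun x y => Φ (p x) (p y)) x y = avg2 (fun x y : Q => Φ (p x) (p y)))
    (hSP : Uni2 SP) (hSQ : Uni2 SQ) : Uni2 (mergeList p DP SP DQ SQ) := by
  have hab : b ≤ a := by
    rw [ha, hb, Fintype.card_sum]; push_cast
    have : (0 : ℝ) ≤ (Fintype.card R : ℝ) := Nat.cast_nonneg _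
    linarith
  have hn : a + b ≠ 0 := by linarith
  have hn1 : a + b - 1 ≠ 0 := by linarith
  have ha0 : a ≠ 0 := by linarith
  have hb0 : b ≠ 0 := by linarith
  have e1 : ∑ q, p q = a * b / (a + b) := by field_simp; linarith
  have e2 : ∑ q, p q ^ 2
      = a * b * ((a + b) * (a + b - 1) - a * b) / ((a + b) ^ 2 * (a + b - 1)) := by
    field_simp; linarith
  apply uni2_of_const
  intro f
  set AP := avg2 (fun x y : Q ⊕ R => f (Sum.inl x) (Sum.inl y)) with hAP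
  set AQ := avg2 (fun x y : Q => f (Sum.inr x) (Sum.inr y)) with hAQ
  set CPQ := avg1 (fun x : Q ⊕ R => avg1 (fun y : Q => f (Sum.inl x) (Sum.inr y))) with hCPQ
  set CQP := avg1 (fun y : Q ⊕ R => avg1 (fun x : Q => f (Sum.inr x) (Sum.inl y))) with hCQP
  refine ⟨(a * (a - 1) * AP + b * (b - 1) * AQ + a * b * (CPQ + CQP))
    / ((a + b) * (a + b - 1)), ?_⟩
  -- third stage
  have s3 : ∀ x y, x ≠ y → E2 (SP.map (Op.map Sum.inl) ++ SQ.map (Op.map Sum.inr)) f x y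
      = blockF AP AQ CPQ CQP x y := by
    rintro (x | x) (y | y) hxy
    · rw [blk_ll, hSP _ x y (fun h => hxy (by rw [h]))]; rfl
    · rw [blk_lr]
      have : ∀ x, E1 SQ (fun y => f (Sum.inl x) (Sum.inr y)) y
          = avg1 (fun y => f (Sum.inl x) (Sum.inr y)) := fun x => hSQ.uni1 _ _
      simp only [this]
      rw [hSP.uni1]; rfl
    · rw [blk_rl]
      have : ∀ y, E1 SQ (fun x => f (Sum.inr x) (Sum.inl y)) x
          = avg1 (fun x => f (Sum.inr x) (Sum.inl y)) := fun y => hSQ.uni1 _ _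
      simp only [this]
      rw [hSP.uni1]; rfl
    · rw [blk_rr, hSQ _ x y (fun h => hxy (by rw [h]))]; rfl
  -- second stage
  have s2 : ∀ x y, x ≠ y → E2 (layer mtau (extr p))
      (E2 (SP.map (Op.map Sum.inl) ++ SQ.map (Op.map Sum.inr)) f) x y
      = layF mtau (extr p) (blockF AP AQ CPQ CQP) x y := by
    intro x y hxy
    rw [E2_congr _ s3 hxy]
    exact E2_layer (τ := mtau) (p := extr p) mtau_mtau (extr_mtau p) _ hxy
  intro x y hxy
  unfold mergeList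
  rw [E2_append, E2_append]
  rw [E2_congr _ s2 hxy]
  rcases x with x | x <;> rcases y with y | y
  · -- both in the large block
    have hxy' : x ≠ y := fun h => hxy (by rw [h])
    rw [blk_ll, E2_congr _ (fun x y h => lay_ll p AP AQ CPQ CQP h) hxy']
    have h1 := hDP2 (fun u v => AP + (CQP - AP) * u + (CPQ - AP) * v
      + (AP + AQ - CPQ - CQP) * (u * v)) x y hxy'
    rw [h1]
    have ha1 : 1 < a := by rw [ha]; exact one_lt_card_of_ne hxy'
    have ha1' : a - 1 ≠ 0 := by linarith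
    rw [avg2_bilin (ext0 p) ha ha1, sum_ext0, sum_ext0_sq, e1, e2]
    field_simp
    ring
  · rw [blk_lr]
    simp only [lay_lr]
    have h1 : ∀ x : Q ⊕ R, E1 DQ (fun y => (CPQ + (AQ - CPQ) * ext0 p x + (AP - CPQ) * p y
        + (CPQ + CQP - AP - AQ) * (ext0 p x * p y))
        + (if x = Sum.inl y then (CPQ + CQP - AP - AQ) * (p y - p y ^ 2) else 0)) y
        = (∑ y, ((CPQ + (AQ - CPQ) * ext0 p x + (AP - CPQ) * p y
        + (CPQ + CQP - AP - AQ) * (ext0 p x * p y))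
        + (if x = Sum.inl y then (CPQ + CQP - AP - AQ) * (p y - p y ^ 2) else 0))) / b := by
      intro x
      rw [hDQ1, avg1, ← hb]
    simp only [h1]
    rw [hDP1, avg1, ← ha, ← sum_div, mixed_sum p ha hb, e1, e2]
    field_simp
    ring
  · rw [blk_rl]
    simp only [lay_rl]
    have h1 : ∀ y : Q ⊕ R, E1 DQ (fun x => (CQP + (AP - CQP) * p x + (AQ - CQP) * ext0 p y
        + (CPQ + CQP - AP - AQ) * (p x * ext0 p y))
        + (if y = Sum.inl x then (CPQ + CQP - AP - AQ) * (p x - p x ^ 2) else 0)) x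
        = (∑ x, ((CQP + (AQ - CQP) * ext0 p y + (AP - CQP) * p x
        + (CPQ + CQP - AP - AQ) * (ext0 p y * p x))
        + (if y = Sum.inl x then (CPQ + CQP - AP - AQ) * (p x - p x ^ 2) else 0))) / b := by
      intro y
      rw [hDQ1, avg1, ← hb]
      congr 1
      refine sum_congr rfl (fun x _ => ?_)
      ring
    simp only [h1]
    rw [hDP1, avg1, ← ha, ← sum_div, mixed_sum p ha hb, e1, e2]
    field_simp
    ring
  · have hxy' : x ≠ y := fun h => hxy (by rw [h])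
    rw [blk_rr, E2_congr _ (fun x y _ => lay_rr p AP AQ CPQ CQP x y) hxy']
    have h1 := hDQ2 (fun u v => AQ + (CPQ - AQ) * u + (CQP - AQ) * v
      + (AP + AQ - CPQ - CQP) * (u * v)) x y hxy'
    rw [h1]
    have hb1' : 1 < b := by rw [hb]; exact one_lt_card_of_ne hxy'
    have hb2 : b - 1 ≠ 0 := by linarith
    rw [avg2_bilin p hb hb1', e1, e2]
    field_simp
    ring

end

end Q292.Sh
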