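import Pool.Agent.Q292.Sh.Grid
import Pool.Agent.Q292.Sh.MergeCore

/-!
# Merging two shuffles
-/

namespace Q292.Sh

open Finset

/-- signs on `Fin b` with sum zero and sum of squares `b` or `b - 1` -/
lemma exists_eps_fin (b : ℕ) : ∃ ε : Fin b → ℝ, (∀ i, |ε i| ≤ 1) ∧ ∑ i, ε i = 0 ∧
    ∑ i, ε i ^ 2 = ((2 * (b / 2) : ℕ) : ℝ) := by
  induction b using Nat.strong_induction_on with
  | _ b ih =>
    match b, ih with
    | 0, _ => exact ⟨fun _ => 0, by simp, by simp, by simp⟩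
    | 1, _ => exact ⟨fun _ => 0, by simp, by simp, by simp⟩
    | b + 2, ih =>
      obtain ⟨ε, h1, h2, h3⟩ := ih b (by omega)
      refine ⟨Fin.cons 1 (Fin.cons (-1) ε), ?_, ?_, ?_⟩
      · intro i
        refine Fin.cases ?_ (fun i => ?_) i
        · simp
        · rw [Fin.cons_succ]
          refine Fin.cases ?_ (fun i => ?_) i
          · simp
          · rw [Fin.cons_succ]; exact h1 i
      · rw [Fin.sum_univ_succ, Fin.cons_zero]
        simp only [Fin.cons_succ]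
        rw [Fin.sum_univ_succ, Fin.cons_zero]
        simp only [Fin.cons_succ]
        rw [h2]; norm_num
      · rw [Fin.sum_univ_succ, Fin.cons_zero]
        simp only [Fin.cons_succ]
        rw [Fin.sum_univ_succ, Fin.cons_zero]
        simp only [Fin.cons_succ]
        rw [h3]
        have : (2 * ((b + 2) / 2) : ℕ) = 2 * (b / 2) + 2 := by omega
        rw [this]; push_cast; ring

lemma exists_eps (Q : Type*) [Fintype Q] : ∃ ε : Q → ℝ, (∀ i, |ε i| ≤ 1) ∧ ∑ i, ε i = 0 ∧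
    ∑ i, ε i ^ 2 = ((2 * (Fintype.card Q / 2) : ℕ) : ℝ) := by
  obtain ⟨ε, h1, h2, h3⟩ := exists_eps_fin (Fintype.card Q)
  refine ⟨fun q => ε (Fintype.equivFin Q q), fun q => h1 _, ?_, ?_⟩
  · rw [Equiv.sum_comp (Fintype.equivFin Q) ε, h2]
  · rw [Equiv.sum_comp (Fintype.equivFin Q) (fun i => ε i ^ 2), h3]

/-- good rates from signs -/
lemma exists_rates {Q : Type*} [Fintype Q] {a b E : ℝ} (hb : b = (Fintype.card Q : ℝ))
    (hb1 : 1 ≤ b) (hab : b ≤ a) (ε : Q → ℝ) (hε : ∀ i, |ε i| ≤ 1) (hε0 : ∑ i, ε i = 0)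
    (hεE : ∑ i, ε i ^ 2 = E) (hE : b - 1 ≤ E) (hE0 : E = 0 → b = 1) :
    ∃ s : ℝ, (∀ q, 0 ≤ a / (a + b) + s * ε q) ∧ (∀ q, a / (a + b) + s * ε q ≤ 1) ∧
      (a + b) * ∑ q, (a / (a + b) + s * ε q) = a * b ∧
      (a + b) ^ 2 * (a + b - 1) * ∑ q, (a / (a + b) + s * ε q) ^ 2
        = a * b * ((a + b) * (a + b - 1) - a * b) := by
  have hn : 0 < a + b := by linarith
  have hn1 : 0 < a + b - 1 := by linarith
  have hE' : 0 ≤ E := by linarith
  set S : ℝ := a * b ^ 2 * (b - 1) / ((a + b) ^ 2 * (a + b - 1) * E) with hS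
  have hS0 : 0 ≤ S := by
    apply div_nonneg
    · have : 0 ≤ b - 1 := by linarith
      have : 0 ≤ a := by linarith
      positivity
    · positivity
  have hSE : (a + b) ^ 2 * (a + b - 1) * (S * E) = a * b ^ 2 * (b - 1) := by
    by_cases h : E = 0
    · rw [h, hE0 h]; ring
    · rw [hS]; field_simp
  have hsq : Real.sqrt S ^ 2 = S := Real.sq_sqrt hS0
  have hs0 : 0 ≤ Real.sqrt S := Real.sqrt_nonneg S
  have hsb : Real.sqrt S ≤ b / (a + b) := by
    apply Real.sqrt_le_iff.2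
    refine ⟨by positivity, ?_⟩
    by_cases h : E = 0
    · rw [hS, h]; simp; positivity
    · have hEpos : 0 < E := lt_of_le_of_ne hE' (Ne.symm h)
      rw [hS, div_pow, div_le_div_iff₀ (by positivity) (by positivity)]
      have h1 : a * (b - 1) ≤ (a + b - 1) * E := by nlinarith
      have h2 : a * (b - 1) * (b ^ 2 * (a + b) ^ 2) ≤ (a + b - 1) * E * (b ^ 2 * (a + b) ^ 2) :=
        mul_le_mul_of_nonneg_right h1 (by positivity)
      nlinarith
  have habs : ∀ q, |Real.sqrt S * ε q| ≤ b / (a + b) := by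
    intro q
    rw [abs_mul, abs_of_nonneg hs0]
    calc Real.sqrt S * |ε q| ≤ Real.sqrt S * 1 := mul_le_mul_of_nonneg_left (hε q) hs0
      _ ≤ b / (a + b) := by linarith
  refine ⟨Real.sqrt S, ?_, ?_, ?_, ?_⟩
  · intro q
    have h1 := (abs_le.1 (habs q)).1
    have h2 : b / (a + b) ≤ a / (a + b) := div_le_div_of_nonneg_right hab hn.le
    linarith
  · intro q
    have h1 := (abs_le.1 (habs q)).2
    have h2 : a / (a + b) + b / (a + b) = 1 := by field_simp
    linarith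
  · rw [sum_add_distrib, ← mul_sum, hε0, sum_const, card_univ, nsmul_eq_mul, ← hb]
    field_simp
    ring
  · have h1 : ∑ q, (a / (a + b) + Real.sqrt S * ε q) ^ 2 = b * (a / (a + b)) ^ 2 + S * E := by
      have : ∀ q, (a / (a + b) + Real.sqrt S * ε q) ^ 2
          = (a / (a + b)) ^ 2 + (2 * (a / (a + b)) * Real.sqrt S) * ε q
            + Real.sqrt S ^ 2 * ε q ^ 2 := by intro q; ring
      simp only [this]
      rw [sum_add_distrib, sum_add_distrib, ← mul_sum, ← mul_sum, hε0, hεE, sum_const, card_univ,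
        nsmul_eq_mul, ← hb, hsq]
      ring
    rw [h1, mul_add, hSE]
    field_simp
    ring

lemma mergeList_length {Q R : Type} [Fintype Q] [Fintype R] [DecidableEq Q] [DecidableEq R]
    (p : Q → ℝ) (DP SP : List (Op (Q ⊕ R))) (DQ SQ : List (Op Q)) :
    (mergeList p DP SP DQ SQ).length ≤ DP.length + DQ.length + SP.length + SQ.length
      + Fintype.card ((Q ⊕ R) ⊕ Q) := by
  have h := layer_length (mtau : (Q ⊕ R) ⊕ Q → (Q ⊕ R) ⊕ Q) (extr p)
  unfold mergeList
  simp only [List.length_append, List.length_map]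
  omega

lemma mergeList_ok {Q R : Type} [Fintype Q] [Fintype R] [DecidableEq Q] [DecidableEq R]
    {p : Q → ℝ} (h0 : ∀ q, 0 ≤ p q) (h1 : ∀ q, p q ≤ 1) {DP SP : List (Op (Q ⊕ R))}
    {DQ SQ : List (Op Q)} (k1 : Ok DP) (k2 : Ok SP) (k3 : Ok DQ) (k4 : Ok SQ) :
    Ok (mergeList p DP SP DQ SQ) := by
  unfold mergeList
  refine (((k1.lift Sum.inl_injective).append (k3.lift Sum.inr_injective)).append
    (layer_ok ?_ ?_)).append ((k2.lift Sum.inl_injective).append (k4.lift Sum.inr_injective))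
  · rintro ((q | r) | q)
    · exact h0 q
    · exact le_rfl
    · exact h0 q
  · rintro ((q | r) | q)
    · exact h1 q
    · exact zero_le_one
    · exact h1 q

/-- **Merge theorem.** -/
theorem merge_has {a b La Lb : ℕ} (hb : 1 ≤ b) (hab : b ≤ a) (hA : Has (Fin a) La)
    (hB : Has (Fin b) Lb) : Has (Fin (a + b)) (2 * La + 2 * Lb + (a + b)) := by
  have e1 : Fin a ≃ Fin b ⊕ Fin (a - b) :=
    Fintype.equivOfCardEq (by simp; omega)
  obtain ⟨ℓa, hok1, hu1, hl1⟩ := hA.transport e1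
  obtain ⟨ℓb, hok2, hu2, hl2⟩ := hB
  obtain ⟨ε, hε1, hε2, hε3⟩ := exists_eps (Fin b)
  have hab' : (b : ℝ) ≤ a := by exact_mod_cast hab
  have hb' : (1 : ℝ) ≤ b := by exact_mod_cast hb
  obtain ⟨s, h0, h1, hS1, hS2⟩ := exists_rates (Q := Fin b) (a := (a : ℝ)) (b := (b : ℝ))
    (E := ((2 * (Fintype.card (Fin b) / 2) : ℕ) : ℝ)) (by simp) hb' hab' ε hε1 hε2 hε3
    (by
      rw [Fintype.card_fin]
      have : b ≤ 2 * (b / 2) + 1 := by omega
      have : (b : ℝ) ≤ ((2 * (b / 2) : ℕ) : ℝ) + 1 := by exact_mod_cast this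
      linarith)
    (by
      intro h
      rw [Fintype.card_fin] at h
      have h' : 2 * (b / 2) = 0 := by exact_mod_cast h
      have : b = 1 := by omega
      rw [this]; norm_num)
  have hcard : Fintype.card (Fin b ⊕ Fin (a - b)) = a := by simp; omega
  have hm := merge_core (R := Fin (a - b)) (fun q => (a : ℝ) / (a + b) + s * ε q)
    (a := (a : ℝ)) (b := (b : ℝ)) (by rw [hcard]) (by simp) hb' hS1 hS2 (DP := ℓa) (SP := ℓa)
    (DQ := ℓb) (SQ := ℓb) hu1.uni1 (fun Φ x y hxy => hu1 _ x y hxy) hu2.uni1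
    (fun Φ x y hxy => hu2 _ x y hxy) hu1 hu2
  have hlen := mergeList_length (R := Fin (a - b)) (fun q => (a : ℝ) / (a + b) + s * ε q)
    ℓa ℓa ℓb ℓb
  have hcard2 : Fintype.card ((Fin b ⊕ Fin (a - b)) ⊕ Fin b) = a + b := by simp; omega
  have hH : Has ((Fin b ⊕ Fin (a - b)) ⊕ Fin b) (2 * La + 2 * Lb + (a + b)) :=
    ⟨_, mergeList_ok h0 h1 hok1 hok1 hok2 hok2, hm, by rw [hcard2] at hlen; omega⟩
  exact hH.transport (Fintype.equivOfCardEq (by rw [hcard2]; simp))

end Q292.Sh
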