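import Pool.Agent.Q292.Sh.Merge

/-!
# Doubling a square, and the fields of size `2 ^ m`
-/

namespace Q292.Sh

open Finset

/-- **Doubling a square.** -/
theorem odd_has {β : Type} [Field β] [DecidableEq β] [Fintype β] {vs : List β}
    (h2 : ∀ x : β, x + x = 0) (hvs : ∀ A : AddSubgroup β, (∀ v ∈ vs, v ∈ A) → ∀ w, w ∈ A)
    (hev : 2 * (Fintype.card β / 2) = Fintype.card β) {L L2 : ℕ} (h : Has β L)
    (hh : Has (β × β) L2) :
    Has (((β × β) ⊕ Empty) ⊕ (β × β))
      (2 * L2 + 2 * (L + (4 * vs.length + 2) * Fintype.card β ^ 2) + 2 * Fintype.card β ^ 2) := by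
  obtain ⟨ℓ₀, hok, hu, hlen⟩ := h
  obtain ⟨ℓb, hokb, hub, hlenb⟩ := hh
  obtain ⟨ε, hε1, hε2, hε3⟩ := exists_eps β
  rw [hev] at hε3
  have hN : (2 : ℝ) ≤ (Fintype.card β : ℝ) := two_le_card
  have hNpos : (0 : ℝ) < (Fintype.card β : ℝ) := by linarith
  have hb1 : (1 : ℝ) ≤ (Fintype.card (β × β) : ℝ) := by
    rw [Fintype.card_prod]; push_cast; nlinarith
  have hs1 : ∑ x : β × β, ε x.2 = 0 := by
    rw [Fintype.sum_prod_type]
    simp [hε2]
  have hs2 : ∑ x : β × β, ε x.2 ^ 2 = (Fintype.card (β × β) : ℝ) := by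
    rw [Fintype.sum_prod_type, Fintype.card_prod]
    simp [hε3]
  obtain ⟨s, h0, h1, hS1, hS2⟩ := exists_rates (Q := β × β) (a := (Fintype.card (β × β) : ℝ))
    (b := (Fintype.card (β × β) : ℝ)) (E := (Fintype.card (β × β) : ℝ)) rfl hb1 le_rfl
    (fun x => ε x.2) (fun x => hε1 _) hs1 hs2 (by linarith) (fun h => by linarith)
  set p : β × β → ℝ := fun x => (Fintype.card (β × β) : ℝ) / ((Fintype.card (β × β) : ℝ)
    + (Fintype.card (β × β) : ℝ)) + s * ε x.2 with hp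
  have hcard : Fintype.card ((β × β) ⊕ Empty) = Fintype.card (β × β) := by simp
  have hu1 : Uni1 (W' vs ℓ₀) := W'_uni1 h2 hvs hu
  have hD2 : ∀ Φ : ℝ → ℝ → ℝ, ∀ x y, x ≠ y → E2 (W' vs ℓ₀) (fun x y => Φ (p x) (p y)) x y
      = avg2 (fun x y : β × β => Φ (p x) (p y)) := by
    intro Φ x y hxy
    exact W'_two h2 hvs hu (fun j j' => Φ ((Fintype.card (β × β) : ℝ)
      / ((Fintype.card (β × β) : ℝ) + (Fintype.card (β × β) : ℝ)) + s * ε j)
      ((Fintype.card (β × β) : ℝ)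
      / ((Fintype.card (β × β) : ℝ) + (Fintype.card (β × β) : ℝ)) + s * ε j')) hxy
  have hm := merge_core (Q := β × β) (R := Empty) p
    (a := (Fintype.card (β × β) : ℝ)) (b := (Fintype.card (β × β) : ℝ)) (by rw [hcard]) rfl hb1
    hS1 hS2 (DP := (W' vs ℓ₀).map (Op.map Sum.inl)) (SP := ℓb.map (Op.map Sum.inl))
    (DQ := W' vs ℓ₀) (SQ := ℓb)
    (by
      intro g x
      refine E1_eq_avg (c := avg1 (fun x : β × β => g (Sum.inl x))) ?_ x
      rintro (x | x)
      · rw [E1_lift Sum.inl_injective, hu1]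
      · exact x.elim)
    (by
      intro Φ x y hxy
      refine E2_eq_avg (c := avg2 (fun x y : β × β => Φ (p x) (p y))) ?_ hxy
      rintro (x | x) (y | y) hxy
      · rw [E2_lift Sum.inl_injective]
        exact hD2 Φ x y (fun h => hxy (by rw [h]))
      · exact y.elim
      · exact x.elim
      · exact x.elim)
    hu1 hD2
    (by
      have := hub.transport (Equiv.sumEmpty (β × β) Empty).symm
      exact this) hub
  have hlen1 := mergeList_length p ((W' vs ℓ₀).map (Op.map (Sum.inl : _ → (β × β) ⊕ Empty)))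
    (ℓb.map (Op.map Sum.inl)) (W' vs ℓ₀) ℓb
  have hcard2 : Fintype.card (((β × β) ⊕ Empty) ⊕ (β × β)) = 2 * Fintype.card β ^ 2 := by
    simp [Fintype.card_sum, Fintype.card_prod]; ring
  have hW := W'_length (vs := vs) (ℓ₀ := ℓ₀)
  refine ⟨_, mergeList_ok h0 h1 ((W'_ok hok).lift Sum.inl_injective)
    (hokb.lift Sum.inl_injective) (W'_ok hok) hokb, hm, ?_⟩
  rw [hcard2] at hlen1
  simp only [List.length_map] at hlen1
  refine hlen1.trans ?_
  nlinarith

/-- fields of size `2 ^ m` -/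
lemma exists_field {m : ℕ} (hm : 1 ≤ m) : ∃ (β : Type) (_ : Field β) (_ : DecidableEq β)
    (_ : Fintype β) (vs : List β), Fintype.card β = 2 ^ m ∧ vs.length = m ∧
      (∀ x : β, x + x = 0) ∧ (∀ A : AddSubgroup β, (∀ v ∈ vs, v ∈ A) → ∀ w, w ∈ A) := by
  classical
  have hm0 : m ≠ 0 := by omega
  have : Fact (Nat.Prime 2) := ⟨Nat.prime_two⟩
  letI : Fintype (GaloisField 2 m) := Fintype.ofFinite _
  let b := Module.finBasis (ZMod 2) (GaloisField 2 m)
  refine ⟨GaloisField 2 m, inferInstance, Classical.decEq _, inferInstance,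
    List.ofFn (fun i => b i), ?_, ?_, ?_, ?_⟩
  · rw [← Nat.card_eq_fintype_card]
    exact GaloisField.card 2 m hm0
  · rw [List.length_ofFn]
    exact GaloisField.finrank 2 hm0
  · intro x
    exact CharTwo.add_self_eq_zero x
  · intro A hA w
    have h1 : Submodule.span (ZMod 2) (Set.range b) ≤ AddSubgroup.toZModSubmodule 2 A := by
      rw [Submodule.span_le]
      rintro _ ⟨i, rfl⟩
      exact hA _ (by rw [List.mem_ofFn]; exact ⟨i, rfl⟩)
    rw [b.span_eq] at h1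
    exact h1 (Submodule.mem_top (x := w))

theorem gridN {m : ℕ} (hm : 1 ≤ m) {L : ℕ} (h : Has (Fin (2 ^ m)) L) :
    Has (Fin (2 ^ (2 * m))) ((2 ^ m + 1) * L + (3 * m + 2) * (2 ^ m) ^ 2) := by
  obtain ⟨β, _, _, _, vs, hc, hl, h2, hvs⟩ := exists_field hm
  have h' : Has β L := h.transport (Fintype.equivOfCardEq (by rw [hc]; simp))
  have := grid_has h2 hvs h'
  rw [hc, hl] at this
  exact this.transport (Fintype.equivOfCardEq (by rw [Fintype.card_prod, hc]; simp; ring))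

theorem oddN {m : ℕ} (hm : 1 ≤ m) {L L2 : ℕ} (h : Has (Fin (2 ^ m)) L)
    (hh : Has (Fin (2 ^ (2 * m))) L2) :
    Has (Fin (2 ^ (2 * m + 1)))
      (2 * L2 + 2 * (L + (4 * m + 2) * (2 ^ m) ^ 2) + 2 * (2 ^ m) ^ 2) := by
  obtain ⟨β, _, _, _, vs, hc, hl, h2, hvs⟩ := exists_field hm
  have h' : Has β L := h.transport (Fintype.equivOfCardEq (by rw [hc]; simp))
  have hh' : Has (β × β) L2 :=
    hh.transport (Fintype.equivOfCardEq (by rw [Fintype.card_prod, hc]; simp; ring))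
  have := odd_has h2 hvs (by
    rw [hc]
    obtain ⟨k, rfl⟩ : ∃ k, m = k + 1 := ⟨m - 1, by omega⟩
    rw [pow_succ]; omega) h' hh'
  rw [hc, hl] at this
  exact this.transport (Fintype.equivOfCardEq (by
    simp [Fintype.card_sum, Fintype.card_prod, hc]; ring))

end Q292.Sh
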