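import Pool.Agent.Q292.Sh.Odd

/-!
# The recursion: `U_2(n) ≤ 195 n log₂ n`
-/

namespace Q292.Sh

open Finset

lemma has_one : Has (Fin 1) 0 :=
  ⟨[], Ok.nil, fun _ x y h => absurd (Subsingleton.elim x y) h, le_rfl⟩

/-- powers of two -/
theorem has_pow (k : ℕ) : Has (Fin (2 ^ k)) (16 * k * 2 ^ k) := by
  induction k using Nat.strong_induction_on with
  | _ k ih =>
    rcases Nat.lt_or_ge k 2 with hk | hk
    · interval_cases k
      · simpa using has_one
      · have := merge_has (a := 1) (b := 1) le_rfl le_rfl has_one has_one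
        exact (this : Has (Fin 2) _).mono (by norm_num)
    · obtain ⟨j, hj | hj⟩ : ∃ j, k = 2 * j ∨ k = 2 * j + 1 := ⟨k / 2, by omega⟩
      · subst hj
        have hj1 : 1 ≤ j := by omega
        have h1 := gridN hj1 (ih j (by omega))
        refine h1.mono ?_
        have h2 : 2 ≤ 2 ^ j := by
          calc 2 = 2 ^ 1 := by norm_num
            _ ≤ 2 ^ j := Nat.pow_le_pow_right (by norm_num) hj1
        have h3 : 2 ^ (2 * j) = (2 ^ j) ^ 2 := by rw [← pow_mul, mul_comm]
        rw [h3]
        generalize 2 ^ j = N at *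
        have h4 : N * (j * N) ≥ 2 * (j * N) := Nat.mul_le_mul_right _ h2
        have h5 : N ^ 2 ≤ j * N ^ 2 := Nat.le_mul_of_pos_left _ hj1
        nlinarith
      · subst hj
        have hj1 : 1 ≤ j := by omega
        have hg := gridN hj1 (ih j (by omega))
        have h1 := oddN hj1 (ih j (by omega)) hg
        refine h1.mono ?_
        have h2 : 2 ≤ 2 ^ j := by
          calc 2 = 2 ^ 1 := by norm_num
            _ ≤ 2 ^ j := Nat.pow_le_pow_right (by norm_num) hj1
        have h3 : 2 ^ (2 * j + 1) = 2 * (2 ^ j) ^ 2 := by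
          rw [pow_succ, ← pow_mul, mul_comm j 2]; ring
        have h6 : 64 * j ≤ (18 * j + 22) * 2 ^ j := by
          rcases Nat.lt_or_ge j 2 with h | h
          · have : j = 1 := by omega
            subst this; norm_num
          · have h7 : 4 ≤ 2 ^ j := by
              calc 4 = 2 ^ 2 := by norm_num
                _ ≤ 2 ^ j := Nat.pow_le_pow_right (by norm_num) h
            nlinarith
        rw [h3]
        generalize 2 ^ j = N at *
        have h8 : 64 * j * N ≤ (18 * j + 22) * N * N := Nat.mul_le_mul_right _ h6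
        nlinarith

/-- **the upper bound for all `n`** -/
theorem has_all (n : ℕ) (hn : 1 ≤ n) : Has (Fin n) (195 * n * Nat.log 2 n) := by
  induction n using Nat.strong_induction_on with
  | _ n ih =>
    rcases Nat.lt_or_ge n 2 with h | h
    · have : n = 1 := by omega
      subst this
      exact has_one.mono (Nat.zero_le _)
    · obtain ⟨k, hk⟩ : ∃ k, Nat.log 2 n = k + 1 := by
        have : 0 < Nat.log 2 n := Nat.log_pos (by norm_num) h
        exact ⟨Nat.log 2 n - 1, by omega⟩
      have h1 : 2 ^ (k + 1) ≤ n := by rw [← hk]; exact Nat.pow_log_le_self 2 (by omega)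
      have h2 : n < 2 ^ (k + 1 + 1) := by
        rw [← hk]; exact Nat.lt_pow_succ_log_self (by norm_num) n
      have hA : Has (Fin (2 ^ (k + 1))) (32 * (k + 1) * 2 ^ (k + 1)) :=
        (has_pow (k + 1)).mono (by nlinarith [Nat.zero_le ((k + 1) * 2 ^ (k + 1))])
      have hB : Has (Fin (2 ^ (k + 1) + 2 ^ k)) (32 * (k + 1) * (3 * 2 ^ k)) := by
        have h3 := merge_has (a := 2 ^ (k + 1)) (b := 2 ^ k) Nat.one_le_two_pow
          (Nat.pow_le_pow_right (by norm_num) (by omega)) (has_pow (k + 1)) (has_pow k)
        refine h3.mono ?_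
        rw [pow_succ]
        generalize 2 ^ k = N
        nlinarith
      rw [hk]
      rw [pow_succ] at h1 h2
      rw [pow_succ] at h2
      -- the general merge step
      have step : ∀ a, 2 ^ (k + 1) ≤ a → a < n → 3 * (n - a) ≤ n →
          Has (Fin a) (32 * (k + 1) * a) → Has (Fin n) (195 * n * (k + 1)) := by
        intro a ha han hr hH
        have hr1 : 1 ≤ n - a := by omega
        have h3 := ih (n - a) (by
          have : 1 ≤ 2 ^ (k + 1) := Nat.one_le_two_pow
          omega) hr1
        have hra : n - a ≤ a := by omega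
        have h4 := merge_has hr1 hra hH h3
        have h5 : a + (n - a) = n := by omega
        rw [h5] at h4
        refine h4.mono ?_
        have h6 : Nat.log 2 (n - a) ≤ k + 1 := by
          rw [← hk]; exact Nat.log_mono_right (by omega)
        have h7 : 195 * (n - a) * Nat.log 2 (n - a) ≤ 195 * (n - a) * (k + 1) :=
          Nat.mul_le_mul_left _ h6
        have h8 : 3 * (n - a) * (k + 1) ≤ n * (k + 1) := Nat.mul_le_mul_right _ hr
        have h9 : 32 * (k + 1) * a ≤ 32 * (k + 1) * n := Nat.mul_le_mul_left _ han.le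
        nlinarith
      rcases Nat.lt_or_ge n (3 * 2 ^ k) with h3 | h3
      · rcases Nat.eq_or_lt_of_le h1 with h4 | h4
        · have h5 : n = 2 ^ (k + 1) := by rw [pow_succ]; exact h4.symm
          rw [h5]
          exact hA.mono (by nlinarith [Nat.zero_le ((k + 1) * 2 ^ (k + 1))])
        · exact step (2 ^ (k + 1)) le_rfl (by rw [pow_succ]; exact h4)
            (by rw [pow_succ]; omega) hA
      · rcases Nat.eq_or_lt_of_le h3 with h4 | h4
        · have h5 : n = 2 ^ (k + 1) + 2 ^ k := by rw [pow_succ]; omega
          have h6 : 3 * 2 ^ k = n := h4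
          rw [h6] at hB
          rw [← h5] at hB
          exact hB.mono (by nlinarith [Nat.zero_le ((k + 1) * n)])
        · have h5 : 2 ^ (k + 1) + 2 ^ k = 3 * 2 ^ k := by rw [pow_succ]; ring
          refine step (3 * 2 ^ k) (by rw [← h5]; omega) h4 (by omega) ?_
          rw [h5] at hB
          exact hB

end Q292.Sh
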