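import Pool.Agent.Q292.Sh.Basic

/-!
# Deterministic relabellings and parallel lists
-/

namespace Q292.Sh

open Finset

section
variable {α : Type*} [DecidableEq α] [Fintype α]

/-- a fixed permutation is a product of at most `card α` swaps performed with probability one -/
lemma exists_relab (π : Equiv.Perm α) : ∃ ℓ : List (Op α), Ok ℓ ∧ ℓ.length ≤ Fintype.card α ∧
    (∀ g x, E1 ℓ g x = g (π x)) ∧ (∀ f x y, E2 ℓ f x y = f (π x) (π y)) := by
  have key : ∀ k : ℕ, ∀ π : Equiv.Perm α, π.support.card ≤ k → ∃ ℓ : List (Op α), Ok ℓ ∧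
      ℓ.length ≤ k ∧ (∀ g x, E1 ℓ g x = g (π x)) ∧ (∀ f x y, E2 ℓ f x y = f (π x) (π y)) := by
    intro k
    induction k with
    | zero =>
      intro π h
      have h1 : π = 1 := by
        have : π.support = ∅ := Finset.card_eq_zero.1 (Nat.le_zero.1 h)
        exact Equiv.Perm.support_eq_empty_iff.1 this
      exact ⟨[], Ok.nil, le_rfl, fun g x => by simp [h1], fun f x y => by simp [h1]⟩
    | succ k ih =>
      intro π h
      by_cases h1 : π = 1
      · exact ⟨[], Ok.nil, Nat.zero_le _, fun g x => by simp [h1], fun f x y => by simp [h1]⟩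
      · obtain ⟨a, ha⟩ : ∃ a, π a ≠ a := by
          by_contra hc
          push Not at hc
          exact h1 (Equiv.ext hc)
        have h2 := Equiv.Perm.card_support_swap_mul ha
        obtain ⟨ℓ, hok, hlen, hE1, hE2⟩ := ih (Equiv.swap a (π a) * π) (by omega)
        refine ⟨ℓ ++ [⟨a, π a, 1⟩], hok.append ?_, by simpa using hlen, ?_, ?_⟩
        · intro o ho
          rw [List.mem_singleton] at ho
          subst ho
          exact ⟨fun h => ha h.symm, by norm_num, by norm_num⟩
        · intro g x
          rw [E1_append, hE1, E1_cons]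
          simp
        · intro f x y
          rw [E2_append, hE2, E2_cons]
          simp
  exact key _ π (Finset.card_le_univ _)

end

section par
variable {ι β : Type*} [DecidableEq ι] [DecidableEq β] [Fintype ι]

/-- the lists `ℓ i` performed in the blocks `{i} × β` -/
noncomputable def par (ℓ : ι → List (Op β)) : List (Op (ι × β)) :=
  (univ : Finset ι).toList.flatMap (fun i => (ℓ i).map (Op.map (Prod.mk i)))

omit [DecidableEq ι] [DecidableEq β] in
lemma par_ok {ℓ : ι → List (Op β)} (h : ∀ i, Ok (ℓ i)) : Ok (par ℓ) := by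
  intro o ho
  obtain ⟨i, _, hi⟩ := List.mem_flatMap.1 ho
  exact (h i).lift (Prod.mk_right_injective i) o hi

omit [DecidableEq ι] [DecidableEq β] in
lemma par_length (ℓ : ι → List (Op β)) : (par ℓ).length = ∑ i, (ℓ i).length := by
  rw [par, List.length_flatMap]
  simp only [List.length_map]
  rw [← Finset.sum_map_toList]

private lemma ne_mk {i i' : ι} (h : i ≠ i') (w : β) : ∀ u : β, (Prod.mk i u) ≠ (i', w) :=
  fun u h' => h (congrArg Prod.fst h')

lemma par_aux (ℓ : ι → List (Op β)) (L : List ι) (hL : L.Nodup) :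
    (∀ g i u, E1 (L.flatMap (fun i => (ℓ i).map (Op.map (Prod.mk i)))) g (i, u)
      = if i ∈ L then E1 (ℓ i) (fun u => g (i, u)) u else g (i, u)) ∧
    (∀ f i u w, E2 (L.flatMap (fun i => (ℓ i).map (Op.map (Prod.mk i)))) f (i, u) (i, w)
      = if i ∈ L then E2 (ℓ i) (fun u w => f (i, u) (i, w)) u w else f (i, u) (i, w)) ∧
    (∀ f i i' u w, i ≠ i' →
      E2 (L.flatMap (fun i => (ℓ i).map (Op.map (Prod.mk i)))) f (i, u) (i', w)
      = E1 (if i ∈ L then ℓ i else []) (fun u =>
          E1 (if i' ∈ L then ℓ i' else []) (fun w => f (i, u) (i', w)) w) u) := by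
  induction L with
  | nil => simp
  | cons k L ih =>
    obtain ⟨ih1, ih2, ih3⟩ := ih (List.nodup_cons.1 hL).2
    have hk : k ∉ L := (List.nodup_cons.1 hL).1
    have hinj : Function.Injective (Prod.mk k : β → ι × β) := Prod.mk_right_injective k
    refine ⟨?_, ?_, ?_⟩
    · intro g i u
      rw [List.flatMap_cons, E1_append]
      by_cases hi : k = i
      · subst hi
        rw [E1_lift hinj]
        simp only [ih1, if_neg hk, List.mem_cons, true_or, if_true]
      · rw [E1_lift_out _ _ (ne_mk hi u), ih1]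
        have : (i ∈ k :: L) ↔ i ∈ L := by simp [Ne.symm hi]
        simp only [this]
    · intro f i u w
      rw [List.flatMap_cons, E2_append]
      by_cases hi : k = i
      · subst hi
        rw [E2_lift hinj]
        simp only [ih2, if_neg hk, List.mem_cons, true_or, if_true]
      · rw [E2_lift_out _ _ (ne_mk hi u) (ne_mk hi w), ih2]
        have : (i ∈ k :: L) ↔ i ∈ L := by simp [Ne.symm hi]
        simp only [this]
    · intro f i i' u w hii
      rw [List.flatMap_cons, E2_append]
      by_cases hi : k = i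
      · subst hi
        rw [E2_lift_fst hinj _ _ _ (ne_mk hii w)]
        have : (i' ∈ k :: L) ↔ i' ∈ L := by simp [Ne.symm hii]
        simp only [ih3 _ _ _ _ _ hii, if_neg hk, List.mem_cons, true_or, if_true, E1_nil, this]
      · by_cases hi' : k = i'
        · subst hi'
          rw [E2_lift_snd hinj _ _ _ (ne_mk hi u)]
          simp only [ih3 _ _ _ _ _ hii, if_neg hk, List.mem_cons, true_or, if_true, E1_nil]
          have hmem : (i ∈ k :: L) ↔ i ∈ L := by simp [Ne.symm hi]
          simp only [Ne.symm hi, false_or]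
          -- exchange of the two expectations
          have hcomm : ∀ (ℓ₁ ℓ₂ : List (Op β)) (F : β → β → ℝ) (u w : β),
              E1 ℓ₂ (fun w => E1 ℓ₁ (fun u => F u w) u) w
                = E1 ℓ₁ (fun u => E1 ℓ₂ (fun w => F u w) w) u := by
            intro ℓ₁ ℓ₂ F u w
            induction ℓ₂ generalizing w with
            | nil => rfl
            | cons o ℓ ih =>
              rw [E1_cons, ih, ih, ← E1_mul, ← E1_mul, ← E1_add]
              rfl
          exact hcomm _ _ _ _ _
        · rw [E2_lift_out _ _ (ne_mk hi u) (ne_mk hi' w), ih3 _ _ _ _ _ hii]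
          simp [Ne.symm hi, Ne.symm hi']

lemma E1_par (ℓ : ι → List (Op β)) (g : ι × β → ℝ) (i : ι) (u : β) :
    E1 (par ℓ) g (i, u) = E1 (ℓ i) (fun u => g (i, u)) u := by
  have h := (par_aux ℓ (univ : Finset ι).toList (Finset.nodup_toList _)).1 g i u
  rw [par, h, if_pos (by simp)]

lemma E2_par_same (ℓ : ι → List (Op β)) (f : ι × β → ι × β → ℝ) (i : ι) (u w : β) :
    E2 (par ℓ) f (i, u) (i, w) = E2 (ℓ i) (fun u w => f (i, u) (i, w)) u w := by
  have h := (par_aux ℓ (univ : Finset ι).toList (Finset.nodup_toList _)).2.1 f i u w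
  rw [par, h, if_pos (by simp)]

lemma E2_par_diff (ℓ : ι → List (Op β)) (f : ι × β → ι × β → ℝ) {i i' : ι} (hi : i ≠ i')
    (u w : β) : E2 (par ℓ) f (i, u) (i', w)
      = E1 (ℓ i) (fun u => E1 (ℓ i') (fun w => f (i, u) (i', w)) w) u := by
  have h := (par_aux ℓ (univ : Finset ι).toList (Finset.nodup_toList _)).2.2 f i i' u w hi
  rw [par, h, if_pos (by simp), if_pos (by simp)]

/-! columns -/

/-- the lists `ℓ j` performed in the blocks `β × {j}` -/
noncomputable def parC (ℓ : ι → List (Op β)) : List (Op (β × ι)) :=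
  (par ℓ).map (Op.map Prod.swap)

omit [DecidableEq ι] [DecidableEq β] in
lemma parC_ok {ℓ : ι → List (Op β)} (h : ∀ i, Ok (ℓ i)) : Ok (parC ℓ) :=
  (par_ok h).lift Prod.swap_injective

omit [DecidableEq ι] [DecidableEq β] in
lemma parC_length (ℓ : ι → List (Op β)) : (parC ℓ).length = ∑ i, (ℓ i).length := by
  rw [parC, List.length_map, par_length]

lemma E1_parC (ℓ : ι → List (Op β)) (g : β × ι → ℝ) (i : ι) (u : β) :
    E1 (parC ℓ) g (u, i) = E1 (ℓ i) (fun u => g (u, i)) u := by
  have h := E1_lift (e := (Prod.swap : ι × β → β × ι)) Prod.swap_injective (par ℓ) g (i, u)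
  rw [E1_par] at h
  exact h

lemma E2_parC_same (ℓ : ι → List (Op β)) (f : β × ι → β × ι → ℝ) (i : ι) (u w : β) :
    E2 (parC ℓ) f (u, i) (w, i) = E2 (ℓ i) (fun u w => f (u, i) (w, i)) u w := by
  have h := E2_lift (e := (Prod.swap : ι × β → β × ι)) Prod.swap_injective (par ℓ) f
    (i, u) (i, w)
  rw [E2_par_same] at h
  exact h

lemma E2_parC_diff (ℓ : ι → List (Op β)) (f : β × ι → β × ι → ℝ) {i i' : ι} (hi : i ≠ i')
    (u w : β) : E2 (parC ℓ) f (u, i) (w, i')
      = E1 (ℓ i) (fun u => E1 (ℓ i') (fun w => f (u, i) (w, i')) w) u := by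
  have h := E2_lift (e := (Prod.swap : ι × β → β × ι)) Prod.swap_injective (par ℓ) f
    (i, u) (i', w)
  rw [E2_par_diff _ _ hi] at h
  exact h

end par

end Q292.Sh
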