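import Pool.Agent.Q292.Sh.Butterfly
import Pool.Agent.Q292.Sh.Relab

/-!
# The list `W` on a grid `β × β`: it spreads functions of the two columns perfectly
-/

namespace Q292.Sh

open Finset

section
variable {β : Type*} [Field β] [DecidableEq β] [Fintype β]

lemma sum_inv_mul (F : β → ℝ) {c : β} (hc : c ≠ 0) :
    ∑ i ∈ univ.erase (0 : β), F (i⁻¹ * c) = ∑ z ∈ univ.erase (0 : β), F z := by
  refine Finset.sum_bij' (fun i _ => i⁻¹ * c) (fun z _ => c * z⁻¹) ?_ ?_ ?_ ?_ ?_
  · intro i hi
    simp only [mem_erase, mem_univ, and_true, ne_eq] at hi ⊢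
    exact mul_ne_zero (inv_ne_zero hi) hc
  · intro z hz
    simp only [mem_erase, mem_univ, and_true, ne_eq] at hz ⊢
    exact mul_ne_zero hc (inv_ne_zero hz)
  · intro i hi
    simp only [mem_erase, mem_univ, and_true, ne_eq] at hi
    field_simp
  · intro z hz
    simp only [mem_erase, mem_univ, and_true, ne_eq] at hz
    field_simp
  · intro i _; rfl

/-- the relabelling `u ↦ i⁻¹ u` -/
noncomputable def rel (i : β) (hi : i ≠ 0) : List (Op β) :=
  (exists_relab (Equiv.mulLeft₀ i⁻¹ (inv_ne_zero hi))).choose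

lemma rel_spec (i : β) (hi : i ≠ 0) : Ok (rel i hi) ∧ (rel i hi).length ≤ Fintype.card β ∧
    (∀ g x, E1 (rel i hi) g x = g (i⁻¹ * x)) ∧
    (∀ f x y, E2 (rel i hi) f x y = f (i⁻¹ * x) (i⁻¹ * y)) :=
  (exists_relab (Equiv.mulLeft₀ i⁻¹ (inv_ne_zero hi))).choose_spec

/-- the lists of the last stage -/
noncomputable def st (vs : List β) (ℓ₀ : List (Op β)) (i : β) : List (Op β) :=
  if hi : i = 0 then ℓ₀ else rel i hi ++ bf vs

variable {vs : List β} {ℓ₀ : List (Op β)}

lemma st_ok (h0 : Ok ℓ₀) (i : β) : Ok (st vs ℓ₀ i) := by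
  unfold st
  split_ifs with hi
  · exact h0
  · exact (rel_spec i hi).1.append (bf_ok vs)

lemma st_length (i : β) : (st vs ℓ₀ i).length ≤
    (if i = 0 then ℓ₀.length else 0) + (vs.length + 1) * Fintype.card β := by
  unfold st
  split_ifs with hi
  · omega
  · have h1 := (rel_spec i hi).2.1
    have h2 := bf_length vs
    rw [List.length_append, add_mul, one_mul]
    omega

variable (h2 : ∀ x : β, x + x = 0) (hvs : ∀ A : AddSubgroup β, (∀ v ∈ vs, v ∈ A) → ∀ w, w ∈ A)
  (hu : Uni2 ℓ₀)

include h2 hvs hu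

lemma st_uni1 (i : β) : Uni1 (st vs ℓ₀ i) := by
  unfold st
  split_ifs with hi
  · exact hu.uni1
  · intro g x
    refine E1_eq_avg (c := avg1 g) ?_ x
    intro z
    rw [E1_append, (rel_spec i hi).2.2.1]
    exact bf_uni1 h2 hvs g _

/-- the sum over the rows of the last stage -/
lemma st_sum (φ : β → β → ℝ) {u w : β} (huw : u ≠ w) :
    ∑ i, E2 (st vs ℓ₀ i) φ u w = (Fintype.card β : ℝ) * avg2 φ := by
  have hN := one_lt_card_of_ne huw
  rw [← Finset.add_sum_erase _ _ (mem_univ (0 : β))]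
  have h0 : E2 (st vs ℓ₀ 0) φ u w = avg2 φ := by
    unfold st; rw [dif_pos rfl]; exact hu φ u w huw
  have hc : u + w ≠ 0 := by
    intro h
    apply huw
    have : u + w + w = u := by rw [add_assoc, h2, add_zero]
    rw [h, zero_add] at this
    exact this.symm
  have h1 : ∀ i ∈ univ.erase (0 : β), E2 (st vs ℓ₀ i) φ u w
      = E2 (bf vs) φ 0 (i⁻¹ * (u + w)) := by
    intro i hi
    simp only [mem_erase, mem_univ, and_true, ne_eq] at hi
    unfold st
    rw [dif_neg hi, E2_append, (rel_spec i hi).2.2.2]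
    have hne : i⁻¹ * u ≠ i⁻¹ * w := fun h => huw (mul_left_cancel₀ (inv_ne_zero hi) h)
    rw [← bf_translate h2 hvs φ (i⁻¹ * u) hne, h2, mul_add, add_comm (i⁻¹ * w)]
  rw [h0, sum_congr rfl h1, sum_inv_mul (fun z => E2 (bf vs) φ 0 z) hc]
  have h3 : ∑ z ∈ univ.erase (0 : β), E2 (bf vs) φ 0 z = avg1 (rowSum φ) := by
    have := rowSum_E2 (bf vs) φ 0
    rw [bf_uni1 h2 hvs] at this
    exact this
  rw [h3, avg1, avg2]
  have h4 : (Fintype.card β : ℝ) ≠ 0 := by linarith
  have h5 : (Fintype.card β : ℝ) - 1 ≠ 0 := by linarith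
  field_simp
  ring

/-- average over both columns -/
noncomputable def avgD (φ : β → β → ℝ) : ℝ := avg1 (fun u => avg1 (fun w => φ u w))

omit h2 hvs hu in
lemma sum_eq_card_mul_avg1' (g : β → ℝ) : ∑ x, g x = (Fintype.card β : ℝ) * avg1 g := by
  have : (Fintype.card β : ℝ) ≠ 0 := by
    have := Fintype.card_pos (α := β)
    positivity
  rw [avg1]; field_simp

lemma stage_diff (φ : β → β → ℝ) {i i' : β} (hi : i ≠ i') (u w : β) :
    E2 (par (st vs ℓ₀)) (fun x y => φ x.2 y.2) (i, u) (i', w) = avgD φ := by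
  rw [E2_par_diff _ _ hi]
  simp only
  have h1 : ∀ u, E1 (st vs ℓ₀ i') (fun w => φ u w) w = avg1 (fun w => φ u w) :=
    fun u => st_uni1 h2 hvs hu i' _ _
  simp only [h1]
  exact st_uni1 h2 hvs hu i _ _

/-- same column indicator -/
def sc (x y : β × β) : ℝ := if x.2 = y.2 then 1 else 0

/-- `(R + (N-1) D) / N` -/
noncomputable def avgV (φ : β → β → ℝ) : ℝ :=
  (avg2 φ + ((Fintype.card β : ℝ) - 1) * avgD φ) / (Fintype.card β : ℝ)

lemma kappa_stage (φ : β → β → ℝ) {x y : β × β} (hxy : x ≠ y) :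
    E2 (parC (fun _ : β => bf vs) ++ par (st vs ℓ₀)) (fun x y => φ x.2 y.2) x y
      = avgV φ + (avgD φ - avgV φ) * sc x y := by
  obtain ⟨i, u⟩ := x
  obtain ⟨k, w⟩ := y
  rw [E2_append]
  by_cases h : u = w
  · subst h
    have hik : i ≠ k := fun h => hxy (by rw [h])
    rw [E2_parC_same]
    have h1 : E2 (bf vs) (fun u' w' =>
        E2 (par (st vs ℓ₀)) (fun x y => φ x.2 y.2) (u', u) (w', u)) i k = avgD φ :=
      E2_eq_const _ (fun a b hab => stage_diff h2 hvs hu φ hab u u) hik
    rw [h1]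
    simp [sc]
  · rw [E2_parC_diff _ _ h]
    have hN := one_lt_card_of_ne h
    have h1 : ∀ a, E1 (bf vs) (fun b =>
        E2 (par (st vs ℓ₀)) (fun x y => φ x.2 y.2) (a, u) (b, w)) k
        = (E2 (st vs ℓ₀ a) φ u w + ((Fintype.card β : ℝ) - 1) * avgD φ)
          / (Fintype.card β : ℝ) := by
      intro a
      rw [bf_uni1 h2 hvs, avg1, ← Finset.add_sum_erase _ _ (mem_univ a)]
      congr 2
      · rw [E2_par_same]
      · have h3 : ∀ b ∈ univ.erase a,
            E2 (par (st vs ℓ₀)) (fun x y => φ x.2 y.2) (a, u) (b, w) = avgD φ := by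
          intro b hb
          exact stage_diff h2 hvs hu φ (fun h => by simp [h] at hb) u w
        rw [sum_congr rfl h3, sum_const, card_erase_of_mem (mem_univ a), card_univ, nsmul_eq_mul,
          Nat.cast_sub (Fintype.card_pos_iff.2 ⟨a⟩)]
        simp
    simp only [h1]
    rw [bf_uni1 h2 hvs, avg1, ← sum_div, sum_add_distrib, st_sum h2 hvs hu φ h, sum_const,
      card_univ, nsmul_eq_mul]
    have h4 : (Fintype.card β : ℝ) ≠ 0 := by linarith
    simp only [sc, if_neg h, avgV]
    field_simp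
    ring

omit h2 hvs hu in
lemma exists_p (N : ℝ) (hN : 2 ≤ N) :
    ∃ p : ℝ, 0 ≤ p ∧ p ≤ 1 ∧ (N + 1) * (N - 2) * p ^ 2 + 2 * (N + 1) * p = N := by
  have hc : ContinuousOn (fun p : ℝ => (N + 1) * (N - 2) * p ^ 2 + 2 * (N + 1) * p)
      (Set.Icc 0 1) := by fun_prop
  have h := intermediate_value_Icc (zero_le_one' ℝ) hc
  have hmem : N ∈ Set.Icc ((N + 1) * (N - 2) * (0:ℝ) ^ 2 + 2 * (N + 1) * 0)
      ((N + 1) * (N - 2) * (1:ℝ) ^ 2 + 2 * (N + 1) * 1) := by
    constructor
    · norm_num; linarith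
    · nlinarith
  obtain ⟨p, hp, hpe⟩ := h hmem
  exact ⟨p, hp.1, hp.2, hpe⟩

omit h2 hvs hu in
lemma avg1_ind (i : β) : avg1 (fun u : β => if u = i then (1 : ℝ) else 0)
    = 1 / (Fintype.card β : ℝ) := by
  rw [avg1, Finset.sum_ite_eq' univ i (fun _ => (1 : ℝ)), if_pos (mem_univ i)]

omit hu in
/-- the first two stages spread the same column indicator perfectly -/
lemma rho_T {p : ℝ} (hp : ((Fintype.card β : ℝ) + 1) * ((Fintype.card β : ℝ) - 2) * p ^ 2
      + 2 * ((Fintype.card β : ℝ) + 1) * p = (Fintype.card β : ℝ)) {x y : β × β} (hxy : x ≠ y) :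
    E2 (par (fun _ : β => bf vs) ++ layer Prod.swap (fun _ : β × β => p)) sc x y
      = 1 / ((Fintype.card β : ℝ) + 1) := by
  obtain ⟨i, u⟩ := x
  obtain ⟨k, w⟩ := y
  have hNpos : (0 : ℝ) < (Fintype.card β : ℝ) := by
    have := Fintype.card_pos (α := β)
    positivity
  have hN : (Fintype.card β : ℝ) ≠ 0 := hNpos.ne'
  have hN1 : (Fintype.card β : ℝ) + 1 ≠ 0 := by linarith
  rw [E2_append]
  have hT : ∀ x y : β × β, x ≠ y → E2 (layer Prod.swap (fun _ : β × β => p)) sc x y
      = layF Prod.swap (fun _ : β × β => p) sc x y := by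
    intro x y hxy
    exact E2_layer (τ := (Prod.swap : β × β → β × β)) (p := fun _ => p) (fun x => Prod.swap_swap x)
      (fun _ => rfl) sc hxy
  by_cases h : i = k
  · subst h
    have huw : u ≠ w := fun h => hxy (by rw [h])
    rw [E2_par_same]
    have h1 : ∀ a b : β, a ≠ b → E2 (layer Prod.swap (fun _ : β × β => p)) sc (i, a) (i, b)
        = (p ^ 2 + p * (1 - p) * (if a = i then 1 else 0))
          + p * (1 - p) * (if b = i then 1 else 0) := by
      intro a b hab
      rw [hT _ _ (fun h => hab (congrArg Prod.snd h))]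
      have hne : ¬ ((i, b) : β × β) = Prod.swap (i, a) := by
        intro h
        rw [Prod.swap_prod_mk, Prod.mk.injEq] at h
        exact hab (h.1.symm.trans h.2.symm)
      unfold layF
      rw [if_neg hne]
      simp only [sc, Prod.swap_prod_mk, if_neg hab, if_true]
      have e1 : (if i = b then (1 : ℝ) else 0) = if b = i then 1 else 0 := by
        simp only [eq_comm]
      rw [e1]; ring
    rw [E2_congr _ h1 huw,
      E2_add _ (fun a _ => p ^ 2 + p * (1 - p) * (if a = i then 1 else 0))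
        (fun _ b => p * (1 - p) * (if b = i then 1 else 0)),
      E2_fst _ (fun a => p ^ 2 + p * (1 - p) * (if a = i then 1 else 0)),
      E2_snd _ (fun b => p * (1 - p) * (if b = i then 1 else 0)),
      E1_add _ (fun _ => p ^ 2) (fun a => p * (1 - p) * (if a = i then 1 else 0)),
      E1_const, E1_mul, E1_mul, bf_uni1 h2 hvs, bf_uni1 h2 hvs, avg1_ind]
    field_simp
    linear_combination hp
  · rw [E2_par_diff _ _ h]
    have hki : k ≠ i := fun h' => h h'.symm
    have h1 : ∀ a b : β, E2 (layer Prod.swap (fun _ : β × β => p)) sc (i, a) (k, b)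
        = (1 - p) ^ 2 * (if b = a then 1 else 0) + p * (1 - p) * (if b = i then 1 else 0)
          + (p * (1 - p) * (if a = k then 1 else 0)
            - 2 * p * (1 - p) * ((if a = k then 1 else 0) * (if b = i then 1 else 0))) := by
      intro a b
      rw [hT _ _ (fun h' => h (congrArg Prod.fst h'))]
      unfold layF
      by_cases hm : ((k, b) : β × β) = Prod.swap (i, a)
      · rw [if_pos hm]
        rw [Prod.swap_prod_mk, Prod.mk.injEq] at hm
        obtain ⟨h3, h4⟩ := hm
        subst h3; subst h4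
        simp only [sc, if_neg h, if_neg hki, if_true]
        ring
      · rw [if_neg hm]
        rw [Prod.swap_prod_mk, Prod.mk.injEq] at hm
        have e1 : (if i = b then (1 : ℝ) else 0) = if b = i then 1 else 0 := by
          simp only [eq_comm]
        have e2 : (if a = b then (1 : ℝ) else 0) = if b = a then 1 else 0 := by
          simp only [eq_comm]
        simp only [sc, Prod.swap_prod_mk, if_neg h, e1, e2]
        by_cases ha : a = k
        · have hb : b ≠ i := fun hb => hm ⟨ha.symm, hb⟩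
          simp only [if_pos ha, if_neg hb]; ring
        · simp only [if_neg ha]; ring
    simp only [h1]
    have h3 : ∀ a : β, E1 (bf vs) (fun b => (1 - p) ^ 2 * (if b = a then 1 else 0)
          + p * (1 - p) * (if b = i then 1 else 0)
          + (p * (1 - p) * (if a = k then 1 else 0)
            - 2 * p * (1 - p) * ((if a = k then 1 else 0) * (if b = i then 1 else 0)))) w
        = ((1 - p) ^ 2 / (Fintype.card β : ℝ) + p * (1 - p) / (Fintype.card β : ℝ))
          + (p * (1 - p) - 2 * p * (1 - p) / (Fintype.card β : ℝ))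
            * (if a = k then 1 else 0) := by
      intro a
      rw [bf_uni1 h2 hvs, avg1, sum_add_distrib, sum_add_distrib, sum_sub_distrib, ← mul_sum,
        ← mul_sum, ← mul_sum, ← mul_sum, ← mul_sum, Finset.sum_ite_eq' univ a (fun _ => (1 : ℝ)),
        Finset.sum_ite_eq' univ i (fun _ => (1 : ℝ)), if_pos (mem_univ a), if_pos (mem_univ i),
        sum_const, card_univ, nsmul_eq_mul]
      field_simp
    simp only [h3]
    rw [E1_add _ (fun _ => (1 - p) ^ 2 / (Fintype.card β : ℝ)
        + p * (1 - p) / (Fintype.card β : ℝ))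
      (fun a => (p * (1 - p) - 2 * p * (1 - p) / (Fintype.card β : ℝ))
            * (if a = k then 1 else 0)), E1_const, E1_mul, bf_uni1 h2 hvs, avg1_ind]
    field_simp
    linear_combination (-1 : ℝ) * hp

end

end Q292.Sh
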